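import Pool.Agent.H78.PE.SmallP
import Pool.Agent.H78.PD.Ana3

/-!
# PE, Ana4: the analytic theorem with all the primes

* `ana4_fail`: `energy_main`, `top`, `t6_up`, `small_p`.
* `ana4_uniq`: `t8s`.
-/

set_option autoImplicit false

namespace Pool.Agent.H78.PE

open Finset
open Pool.Agent.H34PG (lam lam_val lam_mul lam_prime)
open Pool.Agent.H11.LQ Pool.Agent.H78.PG Pool.Agent.H78.PD

theorem ana4_fail : ∃ θ : ℝ, 0 < θ ∧ ∀ ε : ℝ, 0 < ε → ∃ ε1 : ℝ, 0 < ε1 ∧ ∃ Q0 m0 : ℕ,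
    ∀ (m : ℕ) [NeZero m], m0 ≤ m → ∀ Q : ℕ, Q0 ≤ Q → ∀ η : ℤ, FailU θ ε1 m η Q →
      ∃ χ : DirichletCharacter ℂ m, χ ^ 2 = 1 ∧ χ (-1) = (η : ℂ) ∧ Prt m χ ε := by
  classical
  obtain ⟨θ, hθ, HE⟩ := energy_main0 (1 / 2000) (by norm_num) (by norm_num)
  refine ⟨θ, hθ, fun ε hε => ?_⟩
  obtain ⟨e, he⟩ : ∃ e : ℝ, e = min ε (1 / 100) := ⟨_, rfl⟩
  have he0 : 0 < e := by rw [he]; exact lt_min hε (by norm_num)
  have heε : e ≤ ε := by rw [he]; exact min_le_left _ _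
  have he1 : e ≤ 1 / 100 := by rw [he]; exact min_le_right _ _
  obtain ⟨δ0, C0, hδ0, hC0, m4, H4⟩ := small_p
  obtain ⟨δ1, hδ1, m3, H3⟩ := t6_up (e / 32) (e / 2) (e / 2) (by linarith) (by linarith)
    (by linarith) (by linarith) (by linarith)
  obtain ⟨σ, hσ⟩ : ∃ σ, σ = min δ1 (min δ0 (e / (2 * C0))) := ⟨_, rfl⟩
  have hσ0 : 0 < σ := by rw [hσ]; positivity
  have hσ1 : σ ≤ δ1 := by rw [hσ]; exact min_le_left _ _
  have hσ2 : σ ≤ δ0 := by rw [hσ]; exact (min_le_right _ _).trans (min_le_left _ _)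
  have hσ3 : σ ≤ e / (2 * C0) := by rw [hσ]; exact (min_le_right _ _).trans (min_le_right _ _)
  obtain ⟨ε0, _, hε0, _, m1, H1⟩ := top (e / 32) σ (by linarith) (by linarith) hσ0
  obtain ⟨ε1, hε1, Q0, m2, H2⟩ := HE ε0 hε0
  refine ⟨ε1, hε1, Q0, m1 + m2 + m3 + m4 + 1, fun m _ hm Q hQ η hF => ?_⟩
  obtain ⟨U, hU1, hU2⟩ := H2 m (by omega) Q hQ hF.1 η hF.2.1 hF.2.2
  obtain ⟨χ, e1, _, e3, _, e5, e6⟩ := H1 m (by omega) η hF.2.1 U hU1 hU2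
  refine ⟨χ, e1, e3, Prt.mono (by omega) ?_ heε⟩
  have hm1 : (1 : ℝ) ≤ m := by exact_mod_cast (by omega : 1 ≤ m)
  have hm0 : (0 : ℝ) < m := by linarith
  have hB2 : ∑ q ∈ Bad m χ (3 / 10) (37 / 100), 1 / (q : ℝ) ≤ σ := by
    refine (sum_le_sum_of_subset_of_nonneg ?_ fun q _ _ => by positivity).trans e6
    intro q hq
    rw [mem_Bad] at hq ⊢
    refine ⟨hq.1, hq.2.1, ?_, ?_, hq.2.2.2.2⟩
    · refine lt_of_le_of_lt ?_ hq.2.2.1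
      exact Real.rpow_le_rpow_of_exponent_le hm1 (by linarith)
    · refine hq.2.2.2.1.trans ?_
      exact Real.rpow_le_rpow_of_exponent_le hm1 (by norm_num)
  have f1 := H4 m (by omega) η hF.2.1 χ e1 (e5.trans hσ2) (hB2.trans hσ2)
  have f2 := H3 m (by omega) η hF.2.1 χ e1 (e5.trans hσ1) (e6.trans hσ1)
  have f3 : C0 * wout m η {χ} ≤ e / 2 := by
    have h1 := mul_le_mul_of_nonneg_left (e5.trans hσ3) hC0.le
    refine h1.trans (le_of_eq ?_)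
    field_simp
  obtain ⟨S, hS⟩ : ∃ S : Finset ℕ, S = (Icc 1 ⌊(m : ℝ) ^ (1 / 200 : ℝ)⌋₊).filter
      (fun p : ℕ => p.Prime ∧ ¬ p ∣ m ∧ χ (p : ZMod m) ≠ -1) := ⟨_, rfl⟩
  have f4 : ∑ p ∈ S, 1 / (p : ℝ) ≤ e / 2 := by
    rw [hS]
    exact f1.trans f3
  have hsub : Pr m χ e ⊆ S ∪ Bad m χ (e / 32) (1 - e / 2) := by
    intro p hp
    rw [mem_Pr] at hp
    obtain ⟨h1, h2, h3, h4⟩ := hp
    rw [mem_union]
    rcases le_or_gt (p : ℝ) ((m : ℝ) ^ (1 / 200 : ℝ)) with h | h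
    · left
      rw [hS, mem_filter, mem_Icc, Nat.le_floor_iff (by positivity)]
      exact ⟨⟨h2.one_lt.le, h⟩, h2, h3, h4⟩
    · right
      rw [mem_Bad]
      refine ⟨h2, h3, lt_of_le_of_lt ?_ h, h1.trans ?_, h4⟩
      · exact Real.rpow_le_rpow_of_exponent_le hm1 (by linarith)
      · exact Real.rpow_le_rpow_of_exponent_le hm1 (by linarith)
  unfold Prt
  calc ∑ p ∈ Pr m χ e, 1 / (p : ℝ) ≤ ∑ p ∈ S ∪ Bad m χ (e / 32) (1 - e / 2), 1 / (p : ℝ) :=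
        sum_le_sum_of_subset_of_nonneg hsub fun _ _ _ => by positivity
    _ ≤ ∑ p ∈ S, 1 / (p : ℝ) + ∑ p ∈ Bad m χ (e / 32) (1 - e / 2), 1 / (p : ℝ) := by
        rw [← sum_union_inter]
        exact le_add_of_nonneg_right (sum_nonneg fun _ _ => by positivity)
    _ ≤ e / 2 + e / 2 := add_le_add f4 f2
    _ = e := by ring

/-- two real characters with the same product -/
private theorem ana4_lift {m m1 m2 : ℕ} [NeZero m] [NeZero m1] [NeZero m2] (h1 : m1 ∣ m)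
    (h2 : m2 ∣ m) (χ1 : DirichletCharacter ℂ m1) (χ2 : DirichletCharacter ℂ m2) (hχ2 : χ2 ^ 2 = 1)
    (h : DirichletCharacter.changeLevel (Nat.dvd_lcm_left m1 m2) χ1 *
      DirichletCharacter.changeLevel (Nat.dvd_lcm_right m1 m2) χ2 = 1) :
    DirichletCharacter.changeLevel h1 χ1 = DirichletCharacter.changeLevel h2 χ2 := by
  have h3 : Nat.lcm m1 m2 ∣ m := Nat.lcm_dvd h1 h2
  have e1 : DirichletCharacter.changeLevel (Nat.dvd_lcm_right m1 m2) χ2 *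
      DirichletCharacter.changeLevel (Nat.dvd_lcm_right m1 m2) χ2 = 1 := by
    rw [← map_mul, ← pow_two, hχ2, map_one]
  have e2 : DirichletCharacter.changeLevel (Nat.dvd_lcm_left m1 m2) χ1 =
      DirichletCharacter.changeLevel (Nat.dvd_lcm_right m1 m2) χ2 :=
    mul_right_cancel (h.trans e1.symm)
  have e3 := DirichletCharacter.changeLevel_trans χ1 (Nat.dvd_lcm_left m1 m2) h3
  have e4 := DirichletCharacter.changeLevel_trans χ2 (Nat.dvd_lcm_right m1 m2) h3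
  have e5 : DirichletCharacter.changeLevel h1 χ1 = DirichletCharacter.changeLevel h3
      (DirichletCharacter.changeLevel (Nat.dvd_lcm_left m1 m2) χ1) := e3
  have e6 : DirichletCharacter.changeLevel h2 χ2 = DirichletCharacter.changeLevel h3
      (DirichletCharacter.changeLevel (Nat.dvd_lcm_right m1 m2) χ2) := e4
  rw [e5, e6, e2]

theorem ana4_uniq : ∃ ε k : ℝ, 0 < ε ∧ ε ≤ 1 / 100 ∧ 0 < k ∧ k ≤ 1 / 100 ∧ ∃ m0 : ℕ, ∀ m : ℕ,
    m0 ≤ m → ∀ (m1 m2 : ℕ) [NeZero m1] [NeZero m2] (h1 : m1 ∣ m) (h2 : m2 ∣ m),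
    (m : ℝ) ^ (1 - k) ≤ m1 → (m : ℝ) ^ (1 - k) ≤ m2 →
    ∀ (χ1 : DirichletCharacter ℂ m1) (χ2 : DirichletCharacter ℂ m2), χ1 ^ 2 = 1 → χ2 ^ 2 = 1 →
    Prt m1 χ1 ε → Prt m2 χ2 ε →
    DirichletCharacter.changeLevel h1 χ1 = DirichletCharacter.changeLevel h2 χ2 := by
  obtain ⟨δ, δ2, ε, k, g1, g2, g3, g4, g5, g6, g7, X0, H⟩ := t8s
  have key : ∀ (n : ℕ) (χ : DirichletCharacter ℂ n), 1 ≤ n → Prt n χ (min ε δ2) →
      ∑ q ∈ Bad n χ δ (1 - δ2), 1 / (q : ℝ) ≤ ε := by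
    intro n χ hn h
    refine le_trans ?_ (le_trans h (min_le_left _ _))
    refine sum_le_sum_of_subset_of_nonneg (fun p hp => ?_) fun _ _ _ => by positivity
    rw [mem_Bad] at hp
    rw [mem_Pr]
    refine ⟨hp.2.2.2.1.trans ?_, hp.1, hp.2.1, hp.2.2.2.2⟩
    refine Real.rpow_le_rpow_of_exponent_le (by exact_mod_cast hn) ?_
    linarith [min_le_right ε δ2]
  refine ⟨min ε δ2, k, lt_min g5 g1, (min_le_right _ _).trans g2, g6, g7, X0 + 1, ?_⟩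
  intro m hm m1 m2 _ _ h1 h2 hm1 hm2 χ1 χ2 hχ1 hχ2 hP1 hP2
  have : NeZero m := ⟨by omega⟩
  have a1 := NeZero.pos m1
  have a2 := NeZero.pos m2
  exact ana4_lift h1 h2 χ1 χ2 hχ2 (H m (by omega) m1 m2 hm1 (Nat.le_of_dvd (by omega) h1) hm2
    (Nat.le_of_dvd (by omega) h2) χ1 χ2 hχ1 hχ2 (key m1 χ1 a1 hP1) (key m2 χ2 a2 hP2))

end Pool.Agent.H78.PE
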