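import Pool.Agent.H78.PE.Defs
import Pool.Agent.H92.EH3.DivBound

/-!
# PE, Cls: the exceptional residues by their gcd with `m`

* `cls_F`: for `d ∣ m`, `m ≥ 1`: `F m η (d y) = λ(d) F (m/d) η y` for every `y` (reduce mod `m`: `d y mod m = d (y mod m/d)`; the conditions `= 0`, `2 (..) ≤ m` correspond; `λ` is multiplicative, `lam_mul`).
* `cls_sum`: `(d, y) ↦ d y` from `{(d, y) : d ∣ m, y ∈ ExU (m/d) η q}` to `Ex m η q` is injective (`gcd(d y, m) = d` for `y` prime to `m/d`) and well defined (`F m η (q d y) = λ(d) F (m/d) η (q y)`, `λ(d) ≠ 0`).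
* `cls`: `G` = the divisors `d ≤ m^κ` of `m` with `Q #ExU (m/d) η q ≤ ε1 φ(m/d)` for all primes `q ≤ Q`.  `#{x < m : gcd(x, m) = d} = φ(m/d)` (`Nat.totient_div_of_dvd`).  So `#Bd m G = ∑_{d ∣ m, d ∉ G} φ(m/d)`;
  the `d > m^κ` contribute `≤ τ(m) m^(1-κ) ≤ β m/2` (divisor bound, see `Pool.Agent.H92.EH3.DivBound`), the others (each has a prime `q ≤ Q` with `φ(m/d) < (Q/ε1) #ExU (m/d) η q`)
  `≤ ∑_{q ≤ Q} (Q/ε1) ∑_d #ExU (m/d) η q ≤ (Q²/ε1) σ m ≤ β m/2`.
-/

set_option autoImplicit false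

namespace Pool.Agent.H78.PE

open Finset
open Pool.Agent.H34PG (lam lam_val lam_mul lam_prime)
open Pool.Agent.H11.LQ Pool.Agent.H78.PG Pool.Agent.H78.PD

theorem cls_F (m d y : ℕ) (hm : 1 ≤ m) (hd : d ∣ m) (η : ℤ) :
    F m η (d * y) = lam d * F (m / d) η y := by
  obtain ⟨k, rfl⟩ := hd
  have hd0 : 0 < d := by
    rcases Nat.eq_zero_or_pos d with h | h
    · subst h
      omega
    · exact h
  have hk0 : 0 < k := by
    rcases Nat.eq_zero_or_pos k with h | h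
    · subst h
      omega
    · exact h
  rw [Nat.mul_div_cancel_left k hd0]
  unfold F
  rw [Nat.mul_mod_mul_left]
  have hr : y % k < k := Nat.mod_lt _ hk0
  obtain ⟨r, hre⟩ : ∃ r, r = y % k := ⟨_, rfl⟩
  rw [← hre] at hr ⊢
  by_cases h1 : r = 0
  · rw [if_pos h1, h1, mul_zero, if_pos rfl, mul_zero]
  · have h2 : 0 < r := Nat.pos_of_ne_zero h1
    have h3 : d * r ≠ 0 := (Nat.mul_pos hd0 h2).ne'
    rw [if_neg h1, if_neg h3]
    by_cases h4 : 2 * r ≤ k
    · have h5 : 2 * (d * r) ≤ d * k := by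
        have : d * (2 * r) ≤ d * k := Nat.mul_le_mul_left d h4
        have e : d * (2 * r) = 2 * (d * r) := by ring
        omega
      rw [if_pos h4, if_pos h5, lam_mul d r hd0 h2]
    · have h5 : ¬ 2 * (d * r) ≤ d * k := by
        intro h6
        apply h4
        have e : 2 * (d * r) = d * (2 * r) := by ring
        rw [e] at h6
        exact Nat.le_of_mul_le_mul_left h6 hd0
      rw [if_neg h4, if_neg h5, ← Nat.mul_sub, lam_mul d (k - r) hd0 (by omega)]
      ring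

theorem cls_sum (m : ℕ) (hm : 1 ≤ m) (η : ℤ) (q : ℕ) :
    ∑ d ∈ m.divisors, ((ExU (m / d) η q).card : ℝ) ≤ ((Ex m η q).card : ℝ) := by
  have hmaps : Set.MapsTo (fun x => Nat.gcd x m) (Ex m η q : Set ℕ) (m.divisors : Set ℕ) := by
    intro x _
    rw [mem_coe, Nat.mem_divisors]
    exact ⟨Nat.gcd_dvd_right x m, by omega⟩
  have h1 := Finset.card_eq_sum_card_fiberwise hmaps
  have h2 : ∀ d ∈ m.divisors, (ExU (m / d) η q).card ≤ ((Ex m η q).filter (fun x => Nat.gcd x m = d)).card := by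
    intro d hd
    rw [Nat.mem_divisors] at hd
    have hd0 : 0 < d := Nat.pos_of_dvd_of_pos hd.1 (by omega)
    apply Finset.card_le_card_of_injOn (fun y => d * y)
    · intro y hy
      rw [mem_coe, mem_ExU, mem_Ex] at hy
      obtain ⟨⟨hy1, hy2⟩, hy3⟩ := hy
      rw [mem_coe, mem_filter, mem_Ex]
      have e : d * (m / d) = m := Nat.mul_div_cancel' hd.1
      refine ⟨⟨?_, ?_⟩, ?_⟩
      · show d * y < m
        calc d * y < d * (m / d) := Nat.mul_lt_mul_of_pos_left hy1 hd0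
          _ = m := e
      · show F m η (q * (d * y)) ≠ lam q * F m η (d * y)
        have e2 : q * (d * y) = d * (q * y) := by ring
        rw [e2, cls_F m d (q * y) hm hd.1, cls_F m d y hm hd.1]
        intro h3
        apply hy2
        have h4 : lam d ≠ 0 := by
          rcases lam_val d with h | h <;> rw [h] <;> norm_num
        have h5 : lam d * F (m / d) η (q * y) = lam d * (lam q * F (m / d) η y) := by
          rw [h3]
          ring
        exact mul_left_cancel₀ h4 h5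
      · show Nat.gcd (d * y) m = d
        conv_lhs => rw [← e]
        rw [Nat.gcd_mul_left, hy3.gcd_eq_one, mul_one]
    · intro y _ y' _ h
      exact Nat.eq_of_mul_eq_mul_left hd0 h
  rw [h1]
  push_cast
  apply Finset.sum_le_sum
  intro d hd
  exact_mod_cast h2 d hd

theorem cls (κ β : ℝ) (hκ : 0 < κ) (hβ : 0 < β) : ∃ m0 : ℕ, ∀ m : ℕ, m0 ≤ m → ∀ η : ℤ, ∀ Q : ℕ,
    1 ≤ Q → ∀ ε1 σ : ℝ, 0 < ε1 → (Q : ℝ) ^ 2 * σ ≤ ε1 * β / 2 →
    (∀ q : ℕ, q.Prime → q ≤ Q → ((Ex m η q).card : ℝ) ≤ σ * m) →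
    ∃ G : Finset ℕ, (∀ d ∈ G, d ∣ m ∧ (d : ℝ) ≤ (m : ℝ) ^ κ ∧
      ∀ q : ℕ, q.Prime → q ≤ Q → (Q : ℝ) * ((ExU (m / d) η q).card : ℝ) ≤ ε1 * (m / d).totient) ∧
      ((Bd m G).card : ℝ) ≤ β * m := by
  classical
  obtain ⟨C, hC1, hC⟩ := Pool.Agent.H92.EH.div_bound (κ / 2) (by positivity)
  have htend : Filter.Tendsto (fun x : ℝ => x ^ (-(κ / 2))) Filter.atTop (nhds 0) :=
    tendsto_rpow_neg_atTop (by positivity)
  have hpos : 0 < β / (2 * C) := by positivity
  obtain ⟨x0, hx0⟩ := Filter.eventually_atTop.1 (htend.eventually_lt_const hpos)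
  refine ⟨⌈x0⌉₊ + 1, fun m hm η Q hQ ε1 σ hε1 hσ hEx => ?_⟩
  have hm1 : 1 ≤ m := by omega
  have hmR : (1 : ℝ) ≤ m := by exact_mod_cast hm1
  have hm0 : (0 : ℝ) < m := by linarith
  have hxm : x0 ≤ m := by
    refine (Nat.le_ceil x0).trans ?_
    have : ⌈x0⌉₊ ≤ m := by omega
    exact_mod_cast this
  have hsmall := hx0 (m : ℝ) hxm
  set G : Finset ℕ := m.divisors.filter (fun d => (d : ℝ) ≤ (m : ℝ) ^ κ ∧
      ∀ q : ℕ, q.Prime → q ≤ Q → (Q : ℝ) * ((ExU (m / d) η q).card : ℝ) ≤ ε1 * (m / d).totient) with hG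
  refine ⟨G, fun d hd => ?_, ?_⟩
  · rw [hG, mem_filter, Nat.mem_divisors] at hd
    exact ⟨hd.1.1, hd.2⟩
  -- the count
  have hcard : ((Bd m G).card : ℝ) = ∑ d ∈ m.divisors.filter (fun d => d ∉ G), ((m / d).totient : ℝ) := by
    have hmaps : Set.MapsTo (fun x => Nat.gcd x m) (Bd m G : Set ℕ) (m.divisors.filter (fun d => d ∉ G) : Set ℕ) := by
      intro x hx
      rw [mem_coe, mem_Bd] at hx
      rw [coe_filter]
      refine ⟨?_, hx.2⟩
      rw [Nat.mem_divisors]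
      exact ⟨Nat.gcd_dvd_right x m, by omega⟩
    rw [Finset.card_eq_sum_card_fiberwise hmaps]
    push_cast
    refine Finset.sum_congr rfl fun d hd => ?_
    rw [mem_filter, Nat.mem_divisors] at hd
    rw [Nat.totient_div_of_dvd hd.1.1]
    congr 2
    ext x
    rw [mem_filter, mem_filter, mem_Bd, mem_range, Nat.gcd_comm m x]
    constructor
    · rintro ⟨⟨h1, -⟩, h2⟩
      exact ⟨h1, h2⟩
    · rintro ⟨h1, h2⟩
      refine ⟨⟨h1, ?_⟩, h2⟩
      rw [h2]
      exact hd.2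
  -- the primes
  set P : Finset ℕ := (Icc 1 Q).filter (fun q => q.Prime) with hP
  have hPc : (P.card : ℝ) ≤ Q := by
    have h1 : P.card ≤ (Icc 1 Q).card := card_le_card (filter_subset _ _)
    rw [Nat.card_Icc] at h1
    have h2 : P.card ≤ Q := by omega
    exact_mod_cast h2
  have hQ0 : (0 : ℝ) < Q := by
    have : (1 : ℝ) ≤ Q := by exact_mod_cast hQ
    linarith
  have hterm : ∀ d ∈ m.divisors.filter (fun d => d ∉ G), ((m / d).totient : ℝ) ≤
      (m : ℝ) ^ (1 - κ) + ∑ q ∈ P, (Q : ℝ) / ε1 * ((ExU (m / d) η q).card : ℝ) := by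
    intro d hd
    rw [mem_filter, Nat.mem_divisors] at hd
    obtain ⟨⟨hdm, -⟩, hdG⟩ := hd
    have hd0 : 0 < d := Nat.pos_of_dvd_of_pos hdm (by omega)
    have hd0R : (0 : ℝ) < d := by exact_mod_cast hd0
    have hnn : 0 ≤ ∑ q ∈ P, (Q : ℝ) / ε1 * ((ExU (m / d) η q).card : ℝ) :=
      Finset.sum_nonneg fun q _ => by positivity
    by_cases hbig : (d : ℝ) ≤ (m : ℝ) ^ κ
    · have h1 : ¬ ∀ q : ℕ, q.Prime → q ≤ Q → (Q : ℝ) * ((ExU (m / d) η q).card : ℝ) ≤ ε1 * (m / d).totient := by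
        intro h2
        apply hdG
        rw [hG, mem_filter, Nat.mem_divisors]
        exact ⟨⟨hdm, by omega⟩, hbig, h2⟩
      push Not at h1
      obtain ⟨q, hq, hqQ, h2⟩ := h1
      have hqP : q ∈ P := by
        rw [hP, mem_filter, mem_Icc]
        exact ⟨⟨hq.one_lt.le, hqQ⟩, hq⟩
      have h3 : (Q : ℝ) / ε1 * ((ExU (m / d) η q).card : ℝ) ≤ ∑ q ∈ P, (Q : ℝ) / ε1 * ((ExU (m / d) η q).card : ℝ) :=
        Finset.single_le_sum (f := fun q => (Q : ℝ) / ε1 * ((ExU (m / d) η q).card : ℝ)) (fun q _ => by positivity) hqP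
      have h4 : ((m / d).totient : ℝ) ≤ (Q : ℝ) / ε1 * ((ExU (m / d) η q).card : ℝ) := by
        rw [div_mul_eq_mul_div, le_div_iff₀ hε1]
        linarith
      have h5 : 0 ≤ (m : ℝ) ^ (1 - κ) := by positivity
      linarith
    · push Not at hbig
      have h1 : ((m / d).totient : ℝ) ≤ ((m / d : ℕ) : ℝ) := by exact_mod_cast Nat.totient_le _
      have h2 : ((m / d : ℕ) : ℝ) = (m : ℝ) / d := Nat.cast_div hdm hd0R.ne'
      have h3 : (m : ℝ) / d ≤ (m : ℝ) ^ (1 - κ) := by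
        rw [div_le_iff₀ hd0R]
        have h4 : (m : ℝ) ^ (1 - κ) * (m : ℝ) ^ κ = m := by
          rw [← Real.rpow_add hm0, sub_add_cancel, Real.rpow_one]
        have h5 : 0 < (m : ℝ) ^ (1 - κ) := by positivity
        nlinarith
      linarith
  have hsub : m.divisors.filter (fun d => d ∉ G) ⊆ m.divisors := filter_subset _ _
  rw [hcard]
  have hmain : ∑ d ∈ m.divisors.filter (fun d => d ∉ G), ((m / d).totient : ℝ) ≤
      (m.divisors.card : ℝ) * (m : ℝ) ^ (1 - κ) + ∑ q ∈ P, (Q : ℝ) / ε1 * ((Ex m η q).card : ℝ) := by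
    refine (Finset.sum_le_sum hterm).trans ?_
    rw [Finset.sum_add_distrib, Finset.sum_const, nsmul_eq_mul]
    apply add_le_add
    · apply mul_le_mul_of_nonneg_right _ (by positivity)
      exact_mod_cast card_le_card hsub
    · rw [Finset.sum_comm]
      apply Finset.sum_le_sum
      intro q _
      rw [← Finset.mul_sum]
      apply mul_le_mul_of_nonneg_left _ (by positivity)
      refine le_trans ?_ (cls_sum m hm1 η q)
      exact Finset.sum_le_sum_of_subset_of_nonneg hsub fun _ _ _ => by positivity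
  have hfirst : (m.divisors.card : ℝ) * (m : ℝ) ^ (1 - κ) ≤ β * m / 2 := by
    have h1 := hC m hm1
    have h2 : (m : ℝ) ^ (κ / 2) * (m : ℝ) ^ (1 - κ) = m * (m : ℝ) ^ (-(κ / 2)) := by
      rw [← Real.rpow_add hm0]
      have e : κ / 2 + (1 - κ) = 1 + -(κ / 2) := by ring
      rw [e, Real.rpow_add hm0, Real.rpow_one]
    have h3 : (m.divisors.card : ℝ) * (m : ℝ) ^ (1 - κ) ≤ C * (m : ℝ) ^ (κ / 2) * (m : ℝ) ^ (1 - κ) :=
      mul_le_mul_of_nonneg_right h1 (by positivity)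
    rw [mul_assoc, h2] at h3
    have h4 : C * (m * (m : ℝ) ^ (-(κ / 2))) ≤ C * (m * (β / (2 * C))) := by
      apply mul_le_mul_of_nonneg_left _ (by linarith)
      exact mul_le_mul_of_nonneg_left hsmall.le hm0.le
    have h5 : C * (m * (β / (2 * C))) = β * m / 2 := by
      field_simp
    linarith
  have hsecond : ∑ q ∈ P, (Q : ℝ) / ε1 * ((Ex m η q).card : ℝ) ≤ β * m / 2 := by
    rcases P.eq_empty_or_nonempty with hPe | ⟨q0, hq0⟩
    · rw [hPe, Finset.sum_empty]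
      positivity
    · have hmem : ∀ q ∈ P, q.Prime ∧ q ≤ Q := by
        intro q hq
        rw [hP, mem_filter, mem_Icc] at hq
        exact ⟨hq.2, hq.1.2⟩
      have hσ0 : 0 ≤ σ * m := le_trans (by positivity) (hEx q0 (hmem q0 hq0).1 (hmem q0 hq0).2)
      have h1 : ∑ q ∈ P, (Q : ℝ) / ε1 * ((Ex m η q).card : ℝ) ≤ ∑ q ∈ P, (Q : ℝ) / ε1 * (σ * m) := by
        apply Finset.sum_le_sum
        intro q hq
        exact mul_le_mul_of_nonneg_left (hEx q (hmem q hq).1 (hmem q hq).2) (by positivity)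
      rw [Finset.sum_const, nsmul_eq_mul] at h1
      have h2 : (P.card : ℝ) * ((Q : ℝ) / ε1 * (σ * m)) ≤ Q * ((Q : ℝ) / ε1 * (σ * m)) :=
        mul_le_mul_of_nonneg_right hPc (by positivity)
      have h3 : (Q : ℝ) * ((Q : ℝ) / ε1 * (σ * m)) = (Q : ℝ) ^ 2 * σ / ε1 * m := by
        field_simp
      have h4 : (Q : ℝ) ^ 2 * σ / ε1 ≤ β / 2 := by
        rw [div_le_iff₀ hε1]
        linarith
      have h5 : (Q : ℝ) ^ 2 * σ / ε1 * m ≤ β / 2 * m := mul_le_mul_of_nonneg_right h4 hm0.le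
      linarith
  linarith

end Pool.Agent.H78.PE
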