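import Pool.Agent.H78.PE.Defs

/-!
# PE, Cnt: two counting lemmas

`#{x < m : D ∣ x} = m/D` for `D ∣ m`.
* `cnt_union`: `X(x) = #{p ∈ S : p^(a p) ∣ x}`, `s = ∑_S p^(-a p)`: `∑_{x < m} X = m s`, `∑ X² ≤ m (s + s²)` (for `p ≠ p'` in `S` the number `p^(a p) p'^(a p')` divides `m`), and `X` is supported on `B`:
  `(m s)² ≤ #B · m (s + s²)`, so `s ≤ β (1 + s)` and (`β ≤ 1/2`) `s ≤ 2β`.
* `cnt_avg`: `v p` = the exponent of `p` in `m`, `Y(x) = ∑_{p ∈ S, p^(v p) ∣ x} 1/p`.  `∑_{x < m} Y = m ∑_S p^(-1-v p)`; `∑_{x ∉ B} Y ≤ m E`;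
  `∑_{x ∈ B} Y ≤ (#B)^(1/2) (∑_x Y²)^(1/2)`, `∑ Y² ≤ m (∑_S p^(-2-v p) + (∑_S p^(-1-v p))²) ≤ 2 m` (`v p ≥ 1`, `∑_{n ≥ 2} n^(-2) ≤ 1`).
-/

set_option autoImplicit false

namespace Pool.Agent.H78.PE

open Finset
open Pool.Agent.H34PG (lam lam_val lam_mul lam_prime)
open Pool.Agent.H11.LQ Pool.Agent.H78.PG Pool.Agent.H78.PD

theorem cnt_dvd (m D : ℕ) (hm : 1 ≤ m) (hD : D ∣ m) :
    ((range m).filter (fun x => D ∣ x)).card = m / D := by
  obtain ⟨k, rfl⟩ := hD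
  have hD0 : 0 < D := Nat.pos_of_ne_zero (by rintro rfl; simp at hm)
  rw [Nat.mul_div_cancel_left _ hD0]
  have h1 : (range (D * k)).filter (fun x => D ∣ x) = (range k).image (fun i => D * i) := by
    ext x
    simp only [mem_filter, mem_range, mem_image]
    constructor
    · rintro ⟨h1, i, rfl⟩
      exact ⟨i, Nat.lt_of_mul_lt_mul_left h1, rfl⟩
    · rintro ⟨i, h1, rfl⟩
      exact ⟨Nat.mul_lt_mul_of_pos_left h1 hD0, dvd_mul_right _ _⟩
  rw [h1, card_image_of_injective _ (fun a b h => Nat.eq_of_mul_eq_mul_left hD0 h), card_range]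

private theorem cnt_one (m : ℕ) (hm : 1 ≤ m) (D : ℕ) (hD : D ∣ m) :
    ∑ x ∈ range m, (if D ∣ x then (1 : ℝ) else 0) = (m : ℝ) / D := by
  have hD0 : (D : ℝ) ≠ 0 := by
    have : D ≠ 0 := by
      rintro rfl
      rw [zero_dvd_iff] at hD
      omega
    exact_mod_cast this
  rw [sum_boole, cnt_dvd m D hm hD, Nat.cast_div hD hD0]

/-- the weighted count -/
private noncomputable def cntZ (S : Finset ℕ) (a : ℕ → ℕ) (w : ℕ → ℝ) (x : ℕ) : ℝ :=
  ∑ p ∈ S, w p * (if p ^ a p ∣ x then (1 : ℝ) else 0)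

private theorem cntZ_first (m : ℕ) (hm : 1 ≤ m) (S : Finset ℕ) (a : ℕ → ℕ) (w : ℕ → ℝ)
    (hS : ∀ p ∈ S, p ^ a p ∣ m) :
    ∑ x ∈ range m, cntZ S a w x = m * ∑ p ∈ S, w p / (p : ℝ) ^ a p := by
  unfold cntZ
  rw [sum_comm, mul_sum]
  refine sum_congr rfl fun p hp => ?_
  rw [← mul_sum, cnt_one m hm _ (hS p hp)]
  push_cast
  ring

private theorem cntZ_second (m : ℕ) (hm : 1 ≤ m) (S : Finset ℕ) (a : ℕ → ℕ) (w : ℕ → ℝ)
    (hS : ∀ p ∈ S, p.Prime ∧ p ^ a p ∣ m) (hw : ∀ p ∈ S, 0 ≤ w p) :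
    ∑ x ∈ range m, cntZ S a w x ^ 2 ≤
      m * (∑ p ∈ S, w p ^ 2 / (p : ℝ) ^ a p + (∑ p ∈ S, w p / (p : ℝ) ^ a p) ^ 2) := by
  have h1 : ∑ x ∈ range m, cntZ S a w x ^ 2 = ∑ p ∈ S, ∑ p' ∈ S, w p * w p' *
      ∑ x ∈ range m, (if p ^ a p ∣ x then (1 : ℝ) else 0) * (if p' ^ a p' ∣ x then (1 : ℝ) else 0) := by
    unfold cntZ
    simp_rw [pow_two, sum_mul_sum]
    rw [sum_comm]
    refine sum_congr rfl fun p _ => ?_
    rw [sum_comm]
    refine sum_congr rfl fun p' _ => ?_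
    rw [mul_sum]
    refine sum_congr rfl fun x _ => ?_
    ring
  have h2 : ∀ p ∈ S, ∀ p' ∈ S, w p * w p' *
      ∑ x ∈ range m, (if p ^ a p ∣ x then (1 : ℝ) else 0) * (if p' ^ a p' ∣ x then (1 : ℝ) else 0) ≤
      m * ((w p / (p : ℝ) ^ a p) * (w p' / (p' : ℝ) ^ a p')) +
        (if p = p' then m * (w p ^ 2 / (p : ℝ) ^ a p) else 0) := by
    intro p hp p' hp'
    have hpp := (hS p hp).1
    have hpp' := (hS p' hp').1
    have hw1 := hw p hp
    have hw2 := hw p' hp'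
    have hq : (0 : ℝ) < (p : ℝ) ^ a p := by
      have := hpp.pos
      positivity
    have hq' : (0 : ℝ) < (p' : ℝ) ^ a p' := by
      have := hpp'.pos
      positivity
    by_cases h : p = p'
    · subst h
      rw [if_pos rfl]
      have h3 : ∑ x ∈ range m, (if p ^ a p ∣ x then (1 : ℝ) else 0) *
          (if p ^ a p ∣ x then (1 : ℝ) else 0) = (m : ℝ) / ((p ^ a p : ℕ) : ℝ) := by
        rw [← cnt_one m hm _ (hS p hp).2]
        refine sum_congr rfl fun x _ => ?_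
        split_ifs <;> norm_num
      rw [h3]
      push_cast
      have h4 : 0 ≤ (m : ℝ) * ((w p / (p : ℝ) ^ a p) * (w p / (p : ℝ) ^ a p)) := by positivity
      have h5 : w p * w p * ((m : ℝ) / (p : ℝ) ^ a p) = m * (w p ^ 2 / (p : ℝ) ^ a p) := by ring
      rw [h5]
      linarith
    · rw [if_neg h, add_zero]
      have hco : Nat.Coprime (p ^ a p) (p' ^ a p') :=
        Nat.Coprime.pow _ _ ((Nat.coprime_primes hpp hpp').mpr h)
      have h3 : ∑ x ∈ range m, (if p ^ a p ∣ x then (1 : ℝ) else 0) *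
          (if p' ^ a p' ∣ x then (1 : ℝ) else 0) = (m : ℝ) / ((p ^ a p * p' ^ a p' : ℕ) : ℝ) := by
        rw [← cnt_one m hm _ (hco.mul_dvd_of_dvd_of_dvd (hS p hp).2 (hS p' hp').2)]
        refine sum_congr rfl fun x _ => ?_
        by_cases h4 : p ^ a p ∣ x
        · by_cases h5 : p' ^ a p' ∣ x
          · rw [if_pos h4, if_pos h5, if_pos (hco.mul_dvd_of_dvd_of_dvd h4 h5), mul_one]
          · rw [if_neg h5, if_neg (fun h6 => h5 ((dvd_mul_left _ _).trans h6)), mul_zero]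
        · rw [if_neg h4, if_neg (fun h6 => h4 ((dvd_mul_right _ _).trans h6)), zero_mul]
      rw [h3]
      push_cast
      apply le_of_eq
      field_simp
  rw [h1]
  refine (sum_le_sum fun p hp => sum_le_sum fun p' hp' => h2 p hp p' hp').trans ?_
  apply le_of_eq
  simp_rw [sum_add_distrib]
  rw [mul_add, add_comm]
  congr 1
  · rw [mul_sum]
    refine sum_congr rfl fun p hp => ?_
    rw [sum_ite_eq S p, if_pos hp]
  · rw [pow_two, sum_mul_sum, mul_sum]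
    refine sum_congr rfl fun p _ => ?_
    rw [mul_sum]

private theorem cntZ_nonneg (S : Finset ℕ) (a : ℕ → ℕ) (w : ℕ → ℝ) (hw : ∀ p ∈ S, 0 ≤ w p)
    (x : ℕ) : 0 ≤ cntZ S a w x := by
  unfold cntZ
  refine sum_nonneg fun p hp => mul_nonneg (hw p hp) ?_
  split_ifs <;> norm_num

/-- Cauchy-Schwarz on `B` -/
private theorem cntZ_cs (m : ℕ) (hm : 1 ≤ m) (B S : Finset ℕ) (a : ℕ → ℕ) (w : ℕ → ℝ)
    (hS : ∀ p ∈ S, p.Prime ∧ p ^ a p ∣ m) (hw : ∀ p ∈ S, 0 ≤ w p) (β : ℝ)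
    (hBc : (B.card : ℝ) ≤ β * m) :
    (∑ x ∈ (range m).filter (fun x => x ∈ B), cntZ S a w x) ^ 2 ≤ β * m *
      (m * (∑ p ∈ S, w p ^ 2 / (p : ℝ) ^ a p + (∑ p ∈ S, w p / (p : ℝ) ^ a p) ^ 2)) := by
  have h1 := sq_sum_le_card_mul_sum_sq (s := (range m).filter (fun x => x ∈ B))
    (f := fun x => cntZ S a w x)
  refine h1.trans ?_
  have h2 : (((range m).filter (fun x => x ∈ B)).card : ℝ) ≤ β * m := by
    refine le_trans ?_ hBc
    exact_mod_cast card_le_card fun x hx => (mem_filter.mp hx).2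
  have h3 : ∑ x ∈ (range m).filter (fun x => x ∈ B), cntZ S a w x ^ 2 ≤
      ∑ x ∈ range m, cntZ S a w x ^ 2 :=
    sum_le_sum_of_subset_of_nonneg (filter_subset _ _) fun _ _ _ => sq_nonneg _
  have h4 := cntZ_second m hm S a w hS hw
  have h5 : 0 ≤ ∑ x ∈ (range m).filter (fun x => x ∈ B), cntZ S a w x ^ 2 :=
    sum_nonneg fun _ _ => sq_nonneg _
  have h6 : (0 : ℝ) ≤ ((range m).filter (fun x => x ∈ B)).card := by positivity
  exact mul_le_mul h2 (h3.trans h4) h5 (h6.trans h2)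

theorem cnt_union (m : ℕ) (hm : 1 ≤ m) (B S : Finset ℕ) (a : ℕ → ℕ)
    (hS : ∀ p ∈ S, p.Prime ∧ 1 ≤ a p ∧ p ^ a p ∣ m)
    (hB : ∀ p ∈ S, ∀ x : ℕ, x < m → p ^ a p ∣ x → x ∈ B) (β : ℝ) (hβ : β ≤ 1 / 2)
    (hBc : (B.card : ℝ) ≤ β * m) : ∑ p ∈ S, 1 / (p : ℝ) ^ a p ≤ 2 * β := by
  have hm0 : (0 : ℝ) < m := by exact_mod_cast hm
  have hβ0 : 0 ≤ β := by
    have h1 : (0 : ℝ) ≤ β * m := le_trans (by positivity) hBc
    by_contra h2
    push Not at h2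
    have := mul_neg_of_neg_of_pos h2 hm0
    linarith
  have h1 := cntZ_first m hm S a (fun _ => 1) (fun p hp => (hS p hp).2.2)
  have h2 := cntZ_cs m hm B S a (fun _ => 1) (fun p hp => ⟨(hS p hp).1, (hS p hp).2.2⟩)
    (fun _ _ => zero_le_one) β hBc
  have h3 : ∑ x ∈ (range m).filter (fun x => x ∈ B), cntZ S a (fun _ => 1) x =
      ∑ x ∈ range m, cntZ S a (fun _ => 1) x := by
    refine sum_subset (filter_subset _ _) fun x hx hx' => ?_
    have hxB : x ∉ B := fun h => hx' (mem_filter.mpr ⟨hx, h⟩)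
    unfold cntZ
    refine sum_eq_zero fun p hp => ?_
    rw [if_neg (fun h => hxB (hB p hp x (mem_range.mp hx) h)), mul_zero]
  rw [h3, h1] at h2
  simp only [one_pow] at h2
  obtain ⟨s, hs⟩ : ∃ s, s = ∑ p ∈ S, 1 / (p : ℝ) ^ a p := ⟨_, rfl⟩
  rw [← hs] at h2 ⊢
  have hs0 : 0 ≤ s := by
    rw [hs]
    exact sum_nonneg fun _ _ => by positivity
  have h4 : s ^ 2 ≤ β * (s + s ^ 2) := by
    have h5 : (m : ℝ) ^ 2 * s ^ 2 ≤ (m : ℝ) ^ 2 * (β * (s + s ^ 2)) := by nlinarith [h2]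
    exact le_of_mul_le_mul_left h5 (by positivity)
  rcases hs0.eq_or_lt with h5 | h5
  · rw [← h5]
    linarith
  · have h6 : s ≤ β * (1 + s) := by
      have h7 : s * s ≤ s * (β * (1 + s)) := by nlinarith [h4]
      exact le_of_mul_le_mul_left h7 h5
    have h8 : β * s ≤ 1 / 2 * s := mul_le_mul_of_nonneg_right hβ hs0
    linarith

private theorem sum_sq_inv_le (M : ℕ) : ∑ n ∈ Icc 2 (M + 2), 1 / (n : ℝ) ^ 2 ≤ 1 - 1 / ((M : ℝ) + 2) := by
  induction M with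
  | zero => norm_num
  | succ k ih =>
    rw [show k + 1 + 2 = (k + 2) + 1 by ring, sum_Icc_succ_top (by omega)]
    refine (add_le_add_left ih _).trans ?_
    push_cast
    have h1 : (0 : ℝ) < (k : ℝ) + 2 := by positivity
    have h2 : (0 : ℝ) < (k : ℝ) + 3 := by positivity
    have h3 : (k : ℝ) + 2 + 1 = k + 3 := by ring
    have h4 : (k : ℝ) + 1 + 2 = k + 3 := by ring
    rw [h3, h4]
    have h5 : 1 / ((k : ℝ) + 3) ^ 2 ≤ 1 / ((k : ℝ) + 2) - 1 / ((k : ℝ) + 3) := by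
      rw [div_sub_div _ _ h1.ne' h2.ne', div_le_div_iff₀ (by positivity) (by positivity)]
      nlinarith
    linarith

private theorem sum_prime_le (S : Finset ℕ) (e : ℕ → ℕ) (hS : ∀ p ∈ S, p.Prime ∧ 2 ≤ e p) :
    ∑ p ∈ S, 1 / (p : ℝ) ^ e p ≤ 1 := by
  obtain ⟨M, hM⟩ : ∃ M, ∀ p ∈ S, p ≤ M := ⟨S.sup id, fun p hp => le_sup (f := id) hp⟩
  have h1 : ∑ p ∈ S, 1 / (p : ℝ) ^ e p ≤ ∑ n ∈ Icc 2 (M + 2), 1 / (n : ℝ) ^ 2 := by
    refine (sum_le_sum (g := fun p : ℕ => 1 / (p : ℝ) ^ 2) fun p hp => ?_).trans ?_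
    · have h2 : (1 : ℝ) ≤ p := by exact_mod_cast (hS p hp).1.one_lt.le
      exact one_div_le_one_div_of_le (by positivity) (pow_le_pow_right₀ h2 (hS p hp).2)
    · refine sum_le_sum_of_subset_of_nonneg (fun p hp => ?_) fun _ _ _ => by positivity
      rw [mem_Icc]
      have := hM p hp
      exact ⟨(hS p hp).1.two_le, by omega⟩
  have h2 := sum_sq_inv_le M
  have h3 : (0 : ℝ) ≤ 1 / ((M : ℝ) + 2) := by positivity
  linarith

theorem cnt_avg (m : ℕ) (hm : 1 ≤ m) (B S : Finset ℕ) (hS : ∀ p ∈ S, p.Prime ∧ p ∣ m) (β E : ℝ)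
    (hE0 : 0 ≤ E) (hBc : (B.card : ℝ) ≤ β * m)
    (hE : ∀ x : ℕ, x < m → x ∉ B →
      ∑ p ∈ S.filter (fun p => p ^ (m.factorization p) ∣ x), 1 / (p : ℝ) ≤ E) :
    ∑ p ∈ S, 1 / (p : ℝ) ^ (1 + m.factorization p) ≤ E + Real.sqrt (2 * β) := by
  have hm0 : (0 : ℝ) < m := by exact_mod_cast hm
  have hβ0 : 0 ≤ β := by
    have h1 : (0 : ℝ) ≤ β * m := le_trans (by positivity) hBc
    by_contra h2
    push Not at h2
    have := mul_neg_of_neg_of_pos h2 hm0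
    linarith
  have hv : ∀ p ∈ S, 1 ≤ m.factorization p := fun p hp =>
    (hS p hp).1.factorization_pos_of_dvd (by omega) (hS p hp).2
  have hd : ∀ p ∈ S, p.Prime ∧ p ^ (fun p => m.factorization p) p ∣ m := fun p hp =>
    ⟨(hS p hp).1, Nat.ordProj_dvd m p⟩
  have hw : ∀ p ∈ S, (0 : ℝ) ≤ (fun p : ℕ => 1 / (p : ℝ)) p := fun p _ => by positivity
  have h1 := cntZ_first m hm S (fun p => m.factorization p) (fun p => 1 / (p : ℝ))
    (fun p hp => (hd p hp).2)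
  have h2 := cntZ_cs m hm B S (fun p => m.factorization p) (fun p => 1 / (p : ℝ)) hd hw β hBc
  have h3 : ∑ p ∈ S, 1 / (p : ℝ) / (p : ℝ) ^ (m.factorization p) =
      ∑ p ∈ S, 1 / (p : ℝ) ^ (1 + m.factorization p) := by
    refine sum_congr rfl fun p hp => ?_
    rw [div_div, pow_add, pow_one]
  have h4 : ∑ p ∈ S, (1 / (p : ℝ)) ^ 2 / (p : ℝ) ^ (m.factorization p) =
      ∑ p ∈ S, 1 / (p : ℝ) ^ (2 + m.factorization p) := by
    refine sum_congr rfl fun p hp => ?_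
    rw [one_div_pow, div_div, pow_add]
  rw [h3] at h1
  rw [h3, h4] at h2
  have h5 : ∑ p ∈ S, 1 / (p : ℝ) ^ (1 + m.factorization p) ≤ 1 :=
    sum_prime_le S (fun p => 1 + m.factorization p) fun p hp => ⟨(hS p hp).1, by
      have := hv p hp
      omega⟩
  have h6 : ∑ p ∈ S, 1 / (p : ℝ) ^ (2 + m.factorization p) ≤ 1 :=
    sum_prime_le S (fun p => 2 + m.factorization p) fun p hp => ⟨(hS p hp).1, by omega⟩
  obtain ⟨T, hT⟩ : ∃ T, T = ∑ p ∈ S, 1 / (p : ℝ) ^ (1 + m.factorization p) := ⟨_, rfl⟩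
  rw [← hT] at h1 h2 h5 ⊢
  have hT0 : 0 ≤ T := by
    rw [hT]
    exact sum_nonneg fun _ _ => by positivity
  obtain ⟨U, hU⟩ : ∃ U, U = ∑ x ∈ (range m).filter (fun x => x ∈ B),
    cntZ S (fun p => m.factorization p) (fun p => 1 / (p : ℝ)) x := ⟨_, rfl⟩
  rw [← hU] at h2
  have h7 : U ^ 2 ≤ (m : ℝ) ^ 2 * (2 * β) := by
    refine h2.trans ?_
    have h8 : ∑ p ∈ S, 1 / (p : ℝ) ^ (2 + m.factorization p) + T ^ 2 ≤ 2 := by nlinarith
    have h9 : β * m * (m * (∑ p ∈ S, 1 / (p : ℝ) ^ (2 + m.factorization p) + T ^ 2)) ≤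
        β * m * (m * 2) :=
      mul_le_mul_of_nonneg_left (mul_le_mul_of_nonneg_left h8 hm0.le) (by positivity)
    refine h9.trans (le_of_eq ?_)
    ring
  have h8 : U ≤ m * Real.sqrt (2 * β) := by
    have h9 : U ≤ Real.sqrt ((m : ℝ) ^ 2 * (2 * β)) := Real.le_sqrt_of_sq_le h7
    rwa [Real.sqrt_mul (by positivity), Real.sqrt_sq hm0.le] at h9
  have h9 : ∑ x ∈ (range m).filter (fun x => ¬ x ∈ B),
      cntZ S (fun p => m.factorization p) (fun p => 1 / (p : ℝ)) x ≤ m * E := by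
    have h10 : ∀ x ∈ (range m).filter (fun x => ¬ x ∈ B),
        cntZ S (fun p => m.factorization p) (fun p => 1 / (p : ℝ)) x ≤ E := by
      intro x hx
      rw [mem_filter, mem_range] at hx
      refine le_trans (le_of_eq ?_) (hE x hx.1 hx.2)
      unfold cntZ
      rw [sum_filter]
      refine sum_congr rfl fun p _ => ?_
      split_ifs
      · rw [mul_one]
      · rw [mul_zero]
    refine (sum_le_sum h10).trans ?_
    rw [sum_const, nsmul_eq_mul]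
    refine mul_le_mul_of_nonneg_right ?_ hE0
    have := card_filter_le (range m) (fun x => ¬ x ∈ B)
    rw [card_range] at this
    exact_mod_cast this
  have h10 := sum_filter_add_sum_filter_not (range m) (fun x => x ∈ B)
    (fun x => cntZ S (fun p => m.factorization p) (fun p => 1 / (p : ℝ)) x)
  rw [← hU, h1] at h10
  have h11 : (m : ℝ) * T ≤ m * (E + Real.sqrt (2 * β)) := by
    rw [mul_add]
    linarith
  exact le_of_mul_le_mul_left h11 hm0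

end Pool.Agent.H78.PE
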