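import Pool.Agent.H78.PE.Ana4

/-!
# PE, Common: one primitive character for all good divisors

`ε0, k` from `ana4_uniq` (`k0 = k`); `Prt.mono` from `ε` to `ε0`.  For `d ∈ G` the modulus `m/d` is `≥ m^(1-k0)` and `≠ 0` (`d ∣ m`, `m ≠ 0`).  Fix `d0 ∈ G`, `χ` = the character of `d0` lifted to `m`
(`DirichletCharacter.changeLevel`); by `ana4_uniq` it is the lift of the character `χ_d` of every `d ∈ G`.  `c = χ.conductor`, `ψ = χ.primitiveCharacter`.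
For `d ∈ G`: `c` is the conductor of `χ_d` (`DirichletCharacter.conductor_changeLevel`, used in `T8_fin` of `PD/T8.lean`), so `c ∣ m/d` (`conductor_dvd_level`), and `χ_d` is the lift of `ψ` to `m/d`
(both lift to `χ` at level `m`: `changeLevel_injective`, `changeLevel_trans`, `changeLevel_primitiveCharacter`; cf. `fin8_prim` in `H11/LQ/Fin8.lean`).  Hence `ψ² = 1`,
`ψ(-1) = χ_d(-1) = η` (`changeLevel_eq_cast_of_dvd'`, as in `T8_fin`), and for a prime `p ∤ m/d`: `χ_d(p) = ψ(p)` (`changeLevel_eq_cast_of_dvd'`), so `Pr (m/d) ψ ε = Pr (m/d) χ_d ε`.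
-/

set_option autoImplicit false

namespace Pool.Agent.H78.PE

open Finset
open Pool.Agent.H34PG (lam lam_val lam_mul lam_prime)
open Pool.Agent.H11.LQ Pool.Agent.H78.PG Pool.Agent.H78.PD

/-- the values of a character and of its lift -/
theorem Common_val {c n : ℕ} (hc : c ∣ n) (ψ : DirichletCharacter ℂ c) {a : ℤ} (ha : IsCoprime a n) :
    DirichletCharacter.changeLevel hc ψ (a : ZMod n) = ψ (a : ZMod c) :=
  DirichletCharacter.changeLevel_eq_cast_of_dvd' ψ hc ha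

/-- the primes of a character and of its lift -/
theorem Common_Pr {c n : ℕ} (hc : c ∣ n) (ψ : DirichletCharacter ℂ c) (ε : ℝ) :
    Pr n (DirichletCharacter.changeLevel hc ψ) ε = Pr n ψ ε := by
  ext p
  rw [mem_Pr, mem_Pr]
  refine and_congr_right fun _ => and_congr_right fun hp => and_congr_right fun hpn => ?_
  have h1 : IsCoprime (p : ℤ) (n : ℤ) := Nat.isCoprime_iff_coprime.mpr ((Nat.Prime.coprime_iff_not_dvd hp).2 hpn)
  have h2 := Common_val hc ψ h1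
  rw [Int.cast_natCast, Int.cast_natCast] at h2
  rw [h2]

/-- the modulus `m/d` -/
theorem Common_size {m d : ℕ} {k : ℝ} (hm : 1 ≤ m) (hd : d ∣ m) (h : (d : ℝ) ≤ (m : ℝ) ^ k) :
    m / d ≠ 0 ∧ (m : ℝ) ^ (1 - k) ≤ ((m / d : ℕ) : ℝ) := by
  have hm0 : (0 : ℝ) < m := by exact_mod_cast hm
  have hd0 : 0 < d := Nat.pos_of_dvd_of_pos hd hm
  have hd0' : (0 : ℝ) < d := by exact_mod_cast hd0
  refine ⟨(Nat.div_pos (Nat.le_of_dvd hm hd) hd0).ne', ?_⟩
  rw [Nat.cast_div hd hd0'.ne', le_div_iff₀ hd0', Real.rpow_sub hm0, Real.rpow_one, div_mul_eq_mul_div,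
    div_le_iff₀ (by positivity)]
  exact mul_le_mul_of_nonneg_left h hm0.le

theorem common : ∃ ε0 k0 : ℝ, 0 < ε0 ∧ 0 < k0 ∧ k0 ≤ 1 / 100 ∧ ∃ m0 : ℕ, ∀ m : ℕ, m0 ≤ m →
    ∀ ε : ℝ, ε ≤ ε0 → ∀ η : ℤ, ∀ G : Finset ℕ, G.Nonempty →
    (∀ d ∈ G, d ∣ m ∧ (d : ℝ) ≤ (m : ℝ) ^ k0 ∧
      ∃ χ : DirichletCharacter ℂ (m / d), χ ^ 2 = 1 ∧ χ (-1) = (η : ℂ) ∧ Prt (m / d) χ ε) →
    ∃ (c : ℕ) (_ : NeZero c) (ψ : DirichletCharacter ℂ c), c ∣ m ∧ ψ ^ 2 = 1 ∧ ψ (-1) = (η : ℂ) ∧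
      ∀ d ∈ G, c ∣ m / d ∧ Prt (m / d) ψ ε := by
  obtain ⟨ε0, k, hε0, -, hk, hk', m1, H⟩ := ana4_uniq
  refine ⟨ε0, k, hε0, hk, hk', max m1 1, fun m hm ε hε η G hG hyp => ?_⟩
  have hm1 : m1 ≤ m := le_trans (le_max_left _ _) hm
  have hm2 : 1 ≤ m := le_trans (le_max_right _ _) hm
  have hmne : NeZero m := ⟨by omega⟩
  obtain ⟨d0, hd0⟩ := hG
  obtain ⟨e1, e2, χ0, e3, e4, e5⟩ := hyp d0 hd0
  obtain ⟨f1, f2⟩ := Common_size hm2 e1 e2
  have hn0 : m / d0 ∣ m := Nat.div_dvd_of_dvd e1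
  have hne0 : NeZero (m / d0) := ⟨f1⟩
  obtain ⟨χ, hχ⟩ : ∃ χ, χ = DirichletCharacter.changeLevel hn0 χ0 := ⟨_, rfl⟩
  have hcond : NeZero χ.conductor := ⟨by
    intro h
    have h1 := χ.conductor_dvd_level
    rw [h] at h1
    exact NeZero.ne m (Nat.eq_zero_of_zero_dvd h1)⟩
  obtain ⟨ψ, hψ⟩ : ∃ ψ, ψ = χ.primitiveCharacter := ⟨_, rfl⟩
  have hch : DirichletCharacter.changeLevel χ.conductor_dvd_level ψ = χ := by
    rw [hψ]
    exact χ.changeLevel_primitiveCharacter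
  -- every lift
  have key : ∀ (n : ℕ) [NeZero n] (hn : n ∣ m) (χd : DirichletCharacter ℂ n),
      DirichletCharacter.changeLevel hn χd = χ → ∃ hc : χ.conductor ∣ n,
        DirichletCharacter.changeLevel hc ψ = χd := by
    intro n _ hn χd h
    have h1 : χd.conductor = χ.conductor := by
      rw [← h, DirichletCharacter.conductor_changeLevel χd hn]
    have hc : χ.conductor ∣ n := h1 ▸ χd.conductor_dvd_level
    refine ⟨hc, DirichletCharacter.changeLevel_injective hn ?_⟩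
    rw [h, ← DirichletCharacter.changeLevel_trans ψ hc hn]
    exact hch
  obtain ⟨hc0, hψ0⟩ := key (m / d0) hn0 χ0 hχ.symm
  have hψ2 : ψ ^ 2 = 1 := by
    apply DirichletCharacter.changeLevel_injective hc0
    rw [map_pow, hψ0, e3, map_one]
  have hψη : ψ (-1) = (η : ℂ) := by
    have hi : IsCoprime (-1 : ℤ) ((m / d0 : ℕ) : ℤ) := isCoprime_one_left.neg_left
    have h1 := Common_val hc0 ψ hi
    rw [hψ0] at h1
    push_cast at h1
    rw [← h1, e4]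
  refine ⟨χ.conductor, hcond, ψ, χ.conductor_dvd_level, hψ2, hψη, fun d hd => ?_⟩
  obtain ⟨g1, g2, χd, g3, g4, g5⟩ := hyp d hd
  obtain ⟨i1, i2⟩ := Common_size hm2 g1 g2
  have hn : m / d ∣ m := Nat.div_dvd_of_dvd g1
  have hne : NeZero (m / d) := ⟨i1⟩
  have h1 : DirichletCharacter.changeLevel hn χd = χ := by
    rw [hχ]
    exact H m hm1 (m / d) (m / d0) hn hn0 i2 f2 χd χ0 g3 e3 (g5.mono (Nat.one_le_iff_ne_zero.2 i1) hε)
      (e5.mono (Nat.one_le_iff_ne_zero.2 f1) hε)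
  obtain ⟨hc, hψd⟩ := key (m / d) hn χd h1
  refine ⟨hc, ?_⟩
  unfold Prt at g5 ⊢
  rw [← Common_Pr hc ψ ε, hψd]
  exact g5

end Pool.Agent.H78.PE
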