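import Pool.Agent.H78.PE.Defs
import Pool.Agent.H11.LQ.Fin

/-!
# PE, Conv: the elementary converse

`e p` = exponent of `p` in `N/q`.  If `a ∈ pat N s t` (so `0 < a < N`, `λ(a) = s`, `λ(N-a) = t`) then for some prime `p ≤ N` with `χ(p) ≠ -1`: `p^(1 + e p) ∣ a` or `p^(1 + e p) ∣ N - a`.
Otherwise let `d = ∏ p^(v_p(a))` over the primes `p ∣ a` with `χ(p) ≠ -1`.  `v_p(a) ≤ e p`, so `d ∣ N/q`; `d ∣ a`, hence `d ∣ N - a`; the cofactors `a' = a/d`, `b' = (N-a)/d`: no prime `p` with `χ(p) ≠ -1` divides `a'` (clear) or `b'`: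
if `p ∣ b'` then `p^(v_p(a)+1) ∣ N - a`; if `v_p(a) < v_p(N)` then `v_p(N-a) = v_p(a)`, contradiction; else `v_p(N) ≤ v_p(a) ≤ e p ≤ v_p(N)`, so `v_p(a) = e p` and `p^(1 + e p) ∣ N - a`, contradiction.
So `λ(a') = χ(a')`, `λ(b') = χ(b')` (all prime factors have `χ(p) = -1`; `λ` and `χ` completely multiplicative), `a' + b' = N/d ≡ 0 mod q`, so `χ(b') = χ(-1) χ(a')`, `χ(a')² = 1` and
`s t = λ(a) λ(N-a) = λ(d)² λ(a') λ(b') = χ(-1) = -(s t)`, a contradiction.
The number of `0 < a < N` with `p^(1+e p) ∣ a` is `≤ N/p^(1+e p)`, the same for `N - a`: total `≤ 2 N Dd N χ`.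
-/

set_option autoImplicit false

namespace Pool.Agent.H78.PE

open Finset
open Pool.Agent.H34PG (lam lam_val lam_mul lam_prime)
open Pool.Agent.H11.LQ Pool.Agent.H78.PG Pool.Agent.H78.PD

/-- the part of `n` with the primes `χ(p) ≠ -1` and the part with the primes `χ(p) = -1` -/
private theorem conv_split {q : ℕ} (χ : DirichletCharacter ℂ q) (n : ℕ) : 0 < n →
    ∃ d m : ℕ, 0 < d ∧ 0 < m ∧ n = d * m ∧ ((lam m : ℤ) : ℂ) = χ (m : ZMod q) ∧
      (∀ p : ℕ, p.Prime → χ (p : ZMod q) ≠ -1 → m.factorization p = 0) ∧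
      (∀ p : ℕ, p.Prime → χ (p : ZMod q) = -1 → d.factorization p = 0) := by
  induction n using Nat.recOnMul with
  | zero => intro h; exact absurd h (lt_irrefl 0)
  | one =>
    intro _
    refine ⟨1, 1, one_pos, one_pos, rfl, ?_, ?_, ?_⟩
    · rw [Nat.cast_one, map_one, Pool.Agent.H34PG.lam_one, Int.cast_one]
    · intro p _ _
      simp
    · intro p _ _
      simp
  | prime p hp =>
    intro _
    by_cases h : χ (p : ZMod q) = -1
    · refine ⟨1, p, one_pos, hp.pos, (one_mul p).symm, ?_, ?_, ?_⟩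
      · rw [h, lam_prime hp]
        norm_num
      · intro r hr hrn
        refine Nat.factorization_eq_zero_of_not_dvd fun hd => hrn ?_
        rw [(Nat.prime_dvd_prime_iff_eq hr hp).1 hd]
        exact h
      · intro r _ _
        simp
    · refine ⟨p, 1, hp.pos, one_pos, (mul_one p).symm, ?_, ?_, ?_⟩
      · rw [Nat.cast_one, map_one, Pool.Agent.H34PG.lam_one, Int.cast_one]
      · intro r _ _
        simp
      · intro r hr hrn
        refine Nat.factorization_eq_zero_of_not_dvd fun hd => h ?_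
        rw [← (Nat.prime_dvd_prime_iff_eq hr hp).1 hd]
        exact hrn
  | mul a b iha ihb =>
    intro hab
    have ha : 0 < a := Nat.pos_of_ne_zero fun h0 => by rw [h0, zero_mul] at hab; exact lt_irrefl 0 hab
    have hb : 0 < b := Nat.pos_of_ne_zero fun h0 => by rw [h0, mul_zero] at hab; exact lt_irrefl 0 hab
    obtain ⟨d, m, hd, hm, e1, l1, z1, y1⟩ := iha ha
    obtain ⟨d', m', hd', hm', e2, l2, z2, y2⟩ := ihb hb
    refine ⟨d * d', m * m', Nat.mul_pos hd hd', Nat.mul_pos hm hm', ?_, ?_, ?_, ?_⟩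
    · rw [e1, e2]
      ring
    · rw [lam_mul m m' hm hm', Nat.cast_mul, map_mul, Int.cast_mul, l1, l2]
    · intro p hp hpn
      rw [Nat.factorization_mul hm.ne' hm'.ne', Finsupp.add_apply, z1 p hp hpn, z2 p hp hpn]
    · intro p hp hpn
      rw [Nat.factorization_mul hd.ne' hd'.ne', Finsupp.add_apply, y1 p hp hpn, y2 p hp hpn]

private theorem conv_le {N q p a b : ℕ} (hq : q ∣ N) (hab : a + b = N) (ha : 0 < a) (hb : 0 < b)
    (hp : p.Prime) (h2 : p ≤ N → ¬ p ^ (1 + (N / q).factorization p) ∣ b) :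
    b.factorization p ≤ a.factorization p := by
  by_contra hcon
  push Not at hcon
  have h3 : p ^ (a.factorization p + 1) ∣ b :=
    (hp.pow_dvd_iff_le_factorization hb.ne').2 hcon
  have hpN : p ≤ N := by
    have h4 : p ∣ b := dvd_trans (dvd_pow_self p (by omega)) h3
    have := Nat.le_of_dvd hb h4
    omega
  have h5 : b.factorization p < 1 + (N / q).factorization p := by
    by_contra h6
    push Not at h6
    exact h2 hpN ((hp.pow_dvd_iff_le_factorization hb.ne').2 h6)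
  have h6 : p ^ (a.factorization p + 1) ∣ N := by
    refine dvd_trans ?_ (dvd_trans (Nat.ordProj_dvd (N / q) p) (Nat.div_dvd_of_dvd hq))
    exact pow_dvd_pow p (by omega)
  have h7 : p ^ (a.factorization p + 1) ∣ a := by
    rw [← hab] at h6
    exact (Nat.dvd_add_left h3).1 h6
  have h8 := (hp.pow_dvd_iff_le_factorization ha.ne').1 h7
  omega

private theorem conv_key {N q : ℕ} (hN : 1 ≤ N) (hq : q ∣ N) (χ : DirichletCharacter ℂ q) {a b : ℕ}
    (hab : a + b = N) (ha : 0 < a) (hb : 0 < b)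
    (h : ∀ p : ℕ, p.Prime → p ≤ N → χ (p : ZMod q) ≠ -1 →
      ¬ p ^ (1 + (N / q).factorization p) ∣ a ∧ ¬ p ^ (1 + (N / q).factorization p) ∣ b) :
    ((lam a * lam b : ℤ) : ℂ) = χ (-1) := by
  obtain ⟨d, m, hd, hm, e1, l1, z1, y1⟩ := conv_split χ a ha
  obtain ⟨d', m', hd', hm', e2, l2, z2, y2⟩ := conv_split χ b hb
  have hNq : 0 < N / q := Nat.div_pos (Nat.le_of_dvd hN hq)
    (Nat.pos_of_ne_zero fun h0 => by rw [h0, zero_dvd_iff] at hq; omega)
  have fa : ∀ p : ℕ, a.factorization p = d.factorization p + m.factorization p := fun p => by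
    conv_lhs => rw [e1]
    rw [Nat.factorization_mul hd.ne' hm.ne', Finsupp.add_apply]
  have fb : ∀ p : ℕ, b.factorization p = d'.factorization p + m'.factorization p := fun p => by
    conv_lhs => rw [e2]
    rw [Nat.factorization_mul hd'.ne' hm'.ne', Finsupp.add_apply]
  have hdd : d = d' := by
    refine Nat.eq_of_factorization_eq hd.ne' hd'.ne' fun p => ?_
    by_cases hp : p.Prime
    · by_cases hc : χ (p : ZMod q) = -1
      · rw [y1 p hp hc, y2 p hp hc]
      · have a1 := fa p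
        have a2 := fb p
        rw [z1 p hp hc] at a1
        rw [z2 p hp hc] at a2
        have b1 := conv_le hq hab ha hb hp fun hpN => (h p hp hpN hc).2
        have b2 := conv_le hq (by omega : b + a = N) hb ha hp fun hpN => (h p hp hpN hc).1
        omega
    · rw [Nat.factorization_eq_zero_of_not_prime d hp, Nat.factorization_eq_zero_of_not_prime d' hp]
  have hdN : d ∣ N / q := by
    rw [← Nat.factorization_le_iff_dvd hd.ne' hNq.ne']
    intro p
    by_cases hp : p.Prime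
    · by_cases hc : χ (p : ZMod q) = -1
      · rw [y1 p hp hc]
        exact Nat.zero_le _
      · have a1 := fa p
        rw [z1 p hp hc] at a1
        by_contra hcon
        push Not at hcon
        have h3 : p ^ (1 + (N / q).factorization p) ∣ a :=
          (hp.pow_dvd_iff_le_factorization ha.ne').2 (by omega)
        have h4 : p ∣ a := dvd_trans (dvd_pow_self p (by omega)) h3
        have h5 := Nat.le_of_dvd ha h4
        exact (h p hp (by omega) hc).1 h3
    · rw [Nat.factorization_eq_zero_of_not_prime d hp]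
      exact Nat.zero_le _
  obtain ⟨k, hk⟩ := hdN
  have hsum : m + m' = q * k := by
    have h3 : q * (N / q) = N := Nat.mul_div_cancel' hq
    have h4 : d * (m + m') = d * (q * k) := by
      calc d * (m + m') = a + b := by rw [e1, e2, ← hdd]; ring
        _ = q * (N / q) := by rw [h3, hab]
        _ = d * (q * k) := by rw [hk]; ring
    exact Nat.eq_of_mul_eq_mul_left hd h4
  have hmod : (m' : ZMod q) = -1 * (m : ZMod q) := by
    have h3 : ((m + m' : ℕ) : ZMod q) = 0 := by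
      rw [hsum]
      simp
    rw [Nat.cast_add] at h3
    linear_combination h3
  have hsq : ∀ n : ℕ, ((lam n : ℤ) : ℂ) * ((lam n : ℤ) : ℂ) = 1 := fun n => by
    rcases lam_val n with h3 | h3 <;> rw [h3] <;> norm_num
  have g1 : ((lam a : ℤ) : ℂ) = (lam d : ℤ) * χ (m : ZMod q) := by
    conv_lhs => rw [e1]
    rw [lam_mul d m hd hm, Int.cast_mul, l1]
  have g2 : ((lam b : ℤ) : ℂ) = (lam d : ℤ) * (χ (-1) * χ (m : ZMod q)) := by
    conv_lhs => rw [e2]
    rw [lam_mul d' m' hd' hm', Int.cast_mul, l2, ← hdd, hmod, map_mul]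
  rw [Int.cast_mul, g1, g2, ← l1]
  calc ((lam d : ℤ) : ℂ) * ((lam m : ℤ) : ℂ) * (((lam d : ℤ) : ℂ) * (χ (-1) * ((lam m : ℤ) : ℂ))) =
      (((lam d : ℤ) : ℂ) * ((lam d : ℤ) : ℂ)) * (((lam m : ℤ) : ℂ) * ((lam m : ℤ) : ℂ)) * χ (-1) := by
        ring
    _ = χ (-1) := by rw [hsq, hsq, one_mul, one_mul]

theorem conv (N : ℕ) (hN : 1 ≤ N) (s t : ℤ) (hs : s = 1 ∨ s = -1) (ht : t = 1 ∨ t = -1) (q : ℕ)
    (hq : q ∣ N) (χ : DirichletCharacter ℂ q) (hχ : χ (-1) = ((-(s * t) : ℤ) : ℂ)) :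
    ((pat N s t).card : ℝ) ≤ 2 * N * Dd N χ := by
  classical
  obtain ⟨M, hM⟩ : ∃ M : ℕ → ℕ, M = fun p => p ^ (1 + (N / q).factorization p) := ⟨_, rfl⟩
  obtain ⟨P, hP⟩ : ∃ P : Finset ℕ,
      P = (Icc 1 N).filter (fun p : ℕ => p.Prime ∧ χ (p : ZMod q) ≠ -1) := ⟨_, rfl⟩
  have hDd : Dd N χ = ∑ p ∈ P, 1 / ((M p : ℕ) : ℝ) := by
    unfold Dd
    rw [hP, hM]
    refine sum_congr (by congr) fun p _ => ?_
    push_cast
    rfl
  have hsub : pat N s t ⊆ P.biUnion (fun p => (Ioc 0 N).filter (fun x => M p ∣ x) ∪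
      ((Ioc 0 N).filter (fun x => M p ∣ x)).image (fun x => N - x)) := by
    intro a ha
    unfold pat at ha
    rw [mem_filter, mem_range] at ha
    obtain ⟨haN, ha0, la, lb⟩ := ha
    by_contra hcon
    have hall : ∀ p : ℕ, p.Prime → p ≤ N → χ (p : ZMod q) ≠ -1 →
        ¬ p ^ (1 + (N / q).factorization p) ∣ a ∧
          ¬ p ^ (1 + (N / q).factorization p) ∣ N - a := by
      intro p hp hpN hc
      have hpP : p ∈ P := by
        rw [hP, mem_filter, mem_Icc]
        exact ⟨⟨hp.one_lt.le, hpN⟩, hp, hc⟩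
      constructor
      · intro hdvd
        refine hcon (mem_biUnion.2 ⟨p, hpP, mem_union_left _ ?_⟩)
        rw [mem_filter, mem_Ioc, hM]
        exact ⟨⟨ha0, haN.le⟩, hdvd⟩
      · intro hdvd
        refine hcon (mem_biUnion.2 ⟨p, hpP, mem_union_right _ (mem_image.2 ⟨N - a, ?_, by omega⟩)⟩)
        rw [mem_filter, mem_Ioc, hM]
        exact ⟨⟨by omega, by omega⟩, hdvd⟩
    have h3 := conv_key hN hq χ (by omega : a + (N - a) = N) ha0 (by omega) hall
    rw [la, lb, hχ] at h3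
    have h4 : s * t = -(s * t) := by exact_mod_cast h3
    rcases hs with rfl | rfl <;> rcases ht with rfl | rfl <;> norm_num at h4
  have hcard : (pat N s t).card ≤ ∑ p ∈ P, (N / M p + N / M p) := by
    refine (card_le_card hsub).trans (card_biUnion_le.trans (sum_le_sum fun p _ => ?_))
    refine (card_union_le _ _).trans (add_le_add ?_ ?_)
    · rw [Nat.Ioc_filter_dvd_card_eq_div]
    · refine card_image_le.trans ?_
      rw [Nat.Ioc_filter_dvd_card_eq_div]
  have h5 : ((pat N s t).card : ℝ) ≤ ∑ p ∈ P, ((N / M p + N / M p : ℕ) : ℝ) := by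
    exact_mod_cast hcard
  refine h5.trans ?_
  rw [hDd, mul_sum]
  refine sum_le_sum fun p _ => ?_
  have h6 : ((N / M p : ℕ) : ℝ) ≤ (N : ℝ) / ((M p : ℕ) : ℝ) := Nat.cast_div_le
  rw [Nat.cast_add]
  calc ((N / M p : ℕ) : ℝ) + ((N / M p : ℕ) : ℝ) ≤
      (N : ℝ) / ((M p : ℕ) : ℝ) + (N : ℝ) / ((M p : ℕ) : ℝ) := add_le_add h6 h6
    _ = 2 * N * (1 / ((M p : ℕ) : ℝ)) := by ring

end Pool.Agent.H78.PE
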