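import Pool.Agent.H78.PE.Step8
import Pool.Agent.H78.PE.Conv
import Pool.Agent.H11.LQ.Fin9

/-!
# PE, Crit: the criterion

`crit`: `step8`, `ex_pat` (as in `stage3a`, `H11/LQ/Fin8.lean`).  `crit_fine`: `fine_of_pat` (`H11/LQ/Fin9.lean`).
-/

set_option autoImplicit false

namespace Pool.Agent.H78.PE

open Finset
open Pool.Agent.H34PG (lam lam_val lam_mul lam_prime)
open Pool.Agent.H11.LQ Pool.Agent.H78.PG Pool.Agent.H78.PD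

/-- the sign and the modulus -/
private theorem crit_mod {N M : ℕ} {s t : ℤ} (hs : s = 1 ∨ s = -1) (ht : t = 1 ∨ t = -1)
    (hs1 : s = t → N = 2 * M) (hs2 : s ≠ t → N = M) :
    M ∣ N ∧ N ≤ 2 * M ∧ (-(s * t) = 1 ∨ -(s * t) = -1) := by
  refine ⟨?_, ?_, ?_⟩
  · by_cases he : s = t
    · rw [hs1 he]
      exact Dvd.intro_left 2 rfl
    · rw [hs2 he]
  · by_cases he : s = t
    · rw [hs1 he]
    · have := hs2 he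
      omega
  · rcases hs with rfl | rfl <;> rcases ht with rfl | rfl <;> norm_num

theorem crit : ∃ k : ℕ, ∀ ε : ℝ, 0 < ε → ∃ C : ℝ, 1 ≤ C ∧ ∃ N0 : ℕ, ∀ N M : ℕ, N0 ≤ N →
    ∀ s t : ℤ, (s = 1 ∨ s = -1) → (t = 1 ∨ t = -1) → (s = t → N = 2 * M) → (s ≠ t → N = M) →
      (∀ q : ℕ, q ∣ N → ∀ χ : DirichletCharacter ℂ q, χ ^ 2 = 1 →
        χ (-1) = ((-(s * t) : ℤ) : ℂ) → ε ≤ Dd N χ) →
      (N : ℝ) ≤ C * rt N ^ k * ((pat N s t).card : ℝ) := by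
  obtain ⟨k, H0⟩ := step8
  refine ⟨k, fun ε hε => ?_⟩
  obtain ⟨C, hC, N0, H⟩ := H0 (ε / 2) (by linarith)
  refine ⟨C, hC, N0 + 1, fun N M hN s t hs ht hs1 hs2 hr => ?_⟩
  obtain ⟨hMN, hNM, hη⟩ := crit_mod hs ht hs1 hs2
  rcases H N (by omega) M hMN hNM (-(s * t)) hη (pat N s t).card (ex_pat hs ht hs1 hs2) with
    h | ⟨c, _, ψ, h1, h2, h3, h4⟩
  · exact h
  · have h5 := hr c h1 ψ h2 h3
    linarith

theorem crit_fine (hO : OmB) : ∃ k : ℕ, ∀ ε : ℝ, 0 < ε → ∃ C : ℝ, 1 ≤ C ∧ ∃ N0 : ℕ,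
    ∀ N M : ℕ, N0 ≤ N →
    ∀ s t : ℤ, (s = 1 ∨ s = -1) → (t = 1 ∨ t = -1) → (s = t → N = 2 * M) → (s ≠ t → N = M) →
      (∀ q : ℕ, q ∣ N → ∀ χ : DirichletCharacter ℂ q, χ ^ 2 = 1 →
        χ (-1) = ((-(s * t) : ℤ) : ℂ) → ε ≤ Dd N χ) →
      ∀ J K : ℝ, C * rt N ^ k ≤ J → C * Real.log N ^ k ≤ K →
        ∃ T ⊆ pat N s t, (N : ℝ) ≤ J * (T.card : ℝ) ∧
          ∀ a ∈ T, Fine N K a ∧ ∀ v : ℕ, (v ^ 2 ∣ a ∨ v ^ 2 ∣ N - a) → (v : ℝ) ≤ J := by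
  obtain ⟨k0, H0⟩ := crit
  obtain ⟨k, _, H1⟩ := fine_of_pat0 hO k0
  refine ⟨k, fun ε hε => ?_⟩
  obtain ⟨C0, hC0, N0, h0⟩ := H0 ε hε
  obtain ⟨C, hC, h1⟩ := H1 C0 hC0
  refine ⟨C, by linarith, N0 + 4, fun N M hN s t hs ht hs1 hs2 hr J K hJ hK => ?_⟩
  exact h1 N (by omega) s t (h0 N M (by omega) s t hs ht hs1 hs2 hr) J K hJ hK

end Pool.Agent.H78.PE
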