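import Pool.Agent.H78.PD.TDef
import Pool.Agent.H78.PD.ExU

/-!
# PE, Defs: the exact criterion for parity Goldbach: definitions

`Prt n ψ ε`: the sum of `1/p` over the primes `p ≤ n^(1-ε)` not dividing `n` with `ψ(p) ≠ -1` is at most `ε`.
`Dd N χ` for `χ` mod `q`: the sum of `p^(-1-v)` over the primes `p ≤ N` with `χ(p) ≠ -1`, where `v` is the exponent of `p` in `N/q`.
`FailU`: the hypothesis on the exceptional sets, for the residues prime to the modulus.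
-/

set_option autoImplicit false

namespace Pool.Agent.H78.PE

open Finset
open Pool.Agent.H34PG (lam lam_val lam_mul lam_prime)
open Pool.Agent.H11.LQ Pool.Agent.H78.PG Pool.Agent.H78.PD

open Classical in
/-- the primes `p ≤ n^(1-ε)` not dividing `n` with `ψ(p) ≠ -1` -/
noncomputable def Pr (n : ℕ) {c : ℕ} (ψ : DirichletCharacter ℂ c) (ε : ℝ) : Finset ℕ :=
  (Icc 1 ⌊(n : ℝ) ^ (1 - ε)⌋₊).filter (fun p : ℕ => p.Prime ∧ ¬ p ∣ n ∧ ψ (p : ZMod c) ≠ -1)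

open Classical in
theorem mem_Pr {n c : ℕ} {ψ : DirichletCharacter ℂ c} {ε : ℝ} {p : ℕ} :
    p ∈ Pr n ψ ε ↔ (p : ℝ) ≤ (n : ℝ) ^ (1 - ε) ∧ p.Prime ∧ ¬ p ∣ n ∧ ψ (p : ZMod c) ≠ -1 := by
  unfold Pr
  rw [mem_filter, mem_Icc, Nat.le_floor_iff (by positivity)]
  exact ⟨fun h => ⟨h.1.2, h.2⟩, fun h => ⟨⟨h.2.1.one_lt.le, h.1⟩, h.2⟩⟩

/-- the sum of `1/p` over `Pr n ψ ε` is at most `ε` -/
def Prt (n : ℕ) {c : ℕ} (ψ : DirichletCharacter ℂ c) (ε : ℝ) : Prop :=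
  ∑ p ∈ Pr n ψ ε, 1 / (p : ℝ) ≤ ε

theorem Prt.mono {n c : ℕ} {ψ : DirichletCharacter ℂ c} {ε ε' : ℝ} (hn : 1 ≤ n) (h : Prt n ψ ε)
    (hε : ε ≤ ε') : Prt n ψ ε' := by
  refine le_trans ?_ (le_trans h hε)
  refine sum_le_sum_of_subset_of_nonneg (fun p hp => ?_) fun _ _ _ => by positivity
  rw [mem_Pr] at hp ⊢
  refine ⟨hp.1.trans ?_, hp.2⟩
  exact Real.rpow_le_rpow_of_exponent_le (by exact_mod_cast hn) (by linarith)

open Classical in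
/-- the sum of `p^(-1-v)`, `v` the exponent of `p` in `N/q`, over the primes `p ≤ N` with `χ(p) ≠ -1` -/
noncomputable def Dd (N : ℕ) {q : ℕ} (χ : DirichletCharacter ℂ q) : ℝ :=
  ∑ p ∈ (Icc 1 N).filter (fun p : ℕ => p.Prime ∧ χ (p : ZMod q) ≠ -1),
    1 / (p : ℝ) ^ (1 + (N / q).factorization p)

/-- the hypothesis on the exceptional residues prime to `m` -/
def FailU (θ ε1 : ℝ) (m : ℕ) (η : ℤ) (Q : ℕ) : Prop :=
  (m : ℝ) ≤ (Q : ℝ) ^ θ * m.totient ∧ (η = 1 ∨ η = -1) ∧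
    ∀ q : ℕ, q.Prime → q ≤ Q → (Q : ℝ) * ((ExU m η q).card : ℝ) ≤ ε1 * m.totient

/-- the residues mod `m` whose gcd with `m` is not in `G` -/
def Bd (m : ℕ) (G : Finset ℕ) : Finset ℕ := (range m).filter (fun x => Nat.gcd x m ∉ G)

theorem mem_Bd {m : ℕ} {G : Finset ℕ} {x : ℕ} : x ∈ Bd m G ↔ x < m ∧ Nat.gcd x m ∉ G := by
  unfold Bd
  rw [mem_filter, mem_range]

end Pool.Agent.H78.PE
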