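import Pool.Agent.H78.PE.Cnt
import Pool.Agent.H78.PD.Pri

/-!
# PE, Dst: from the good divisors to `Dd m ψ`

`ε' = κ = ε/16`, `β = ε²/800`, `B = Bd m G`, `#B ≤ β m < m`, so `G` is not empty; `y = m^(1-ε/8) ≤ (m/d)^(1-ε')` for `d ∈ G` (`(1-κ)(1-ε') ≥ 1 - ε/8`, `m/d ≥ m^(1-κ)`).  `v p` = exponent of `p` in `m`.
The primes `p ≤ m` with `ψ(p) ≠ -1` (the terms of `Dd m ψ`, `q = c`):
* (A) `p ∣ c`: exponent `a p = 1 + v_p(m/c) ≤ v p`; for `x < m` with `p^(a p) ∣ x`, `d = gcd(x, m)` is divisible by `p^(a p)`; if `d ∈ G` then `c ∣ m/d`, `v_p(c) + v_p(d) ≤ v_p(m) = v_p(c) + v_p(m/c)`, a contradiction.  So `x ∈ B` and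
  `cnt_union` gives `≤ 2β`.
* (B1) `p ∤ c`, `p ∤ m`, `p ≤ y`: the term is `1/p` (`v_p(m/c) = 0`); these primes are in `Pr (m/d) ψ ε'` for any `d ∈ G`: `≤ ε'`.
* (B2) `p ∤ c`, `p ∣ m`, `p ≤ y`: the term is `p^(-1-v p)` (`v_p(m/c) = v p`); `cnt_avg` with `E = ε'`: for `x ∉ B`, `d = gcd(x, m) ∈ G`, the `p` with `p^(v p) ∣ x` do not divide `m/d`, so they are in `Pr (m/d) ψ ε'`: `≤ ε' + √(2β) = ε' + ε/20`.
* (C) `p ∤ c`, `p > y`: for `p ∤ m`: `∑ 1/p ≤ log(1/(1-ε/8)) + ε/16 ≤ ε/7 + ε/16` (`pri_mert` with `a = 1 - ε/8`, `b = 1`, `PI m (m^a) (m^1)`); for `p ∣ m`: the term is `≤ 1/p² ≤ 1/y²`, at most one such prime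
  (`y² > m`), total `≤ ε/16` for `m` large.
Sum `≤ ε/400 + ε/16 + ε/16 + ε/20 + ε/7 + ε/16 + ε/16 ≤ ε/2`.
-/

set_option autoImplicit false

namespace Pool.Agent.H78.PE

open Finset
open Pool.Agent.H34PG (lam lam_val lam_mul lam_prime)
open Pool.Agent.H11.LQ Pool.Agent.H78.PG Pool.Agent.H78.PD

private theorem Dst_fac_zero {m c p : ℕ} (hc : c ∣ m) (hpm : ¬ p ∣ m) : (m / c).factorization p = 0 :=
  Nat.factorization_eq_zero_of_not_dvd fun h => hpm (h.trans (Nat.div_dvd_of_dvd hc))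

private theorem Dst_fac_add {m c : ℕ} (hm : m ≠ 0) (hc : c ∣ m) (p : ℕ) :
    m.factorization p = c.factorization p + (m / c).factorization p := by
  have hc0 : c ≠ 0 := fun h => hm (by rw [h] at hc; exact Nat.eq_zero_of_zero_dvd hc)
  have h1 : c.factorization p ≤ m.factorization p := (Nat.factorization_le_iff_dvd hc0 hm).2 hc p
  rw [Nat.factorization_div hc, Finsupp.tsub_apply]
  omega

private theorem Dst_A {ε : ℝ} (hε1 : ε ≤ 1) (hε : 0 < ε) {m : ℕ} (hm : 1 ≤ m) {c : ℕ} (hc : c ∣ m) {G : Finset ℕ}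
    (hB : ((Bd m G).card : ℝ) ≤ ε ^ 2 / 800 * m) (hG : ∀ d ∈ G, d ∣ m ∧ c ∣ m / d) {S : Finset ℕ}
    (hS : ∀ p ∈ S, p.Prime ∧ p ∣ c) :
    ∑ p ∈ S, 1 / (p : ℝ) ^ (1 + (m / c).factorization p) ≤ ε / 400 := by
  have hm0 : m ≠ 0 := by omega
  have hc0 : c ≠ 0 := fun h => hm0 (by rw [h] at hc; exact Nat.eq_zero_of_zero_dvd hc)
  have h := cnt_union m hm (Bd m G) S (fun p => 1 + (m / c).factorization p) (fun p hp => ?_) (fun p hp x hx hpx => ?_)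
    (ε ^ 2 / 800) (by nlinarith) hB
  · refine h.trans ?_
    nlinarith
  · obtain ⟨hp1, hp2⟩ := hS p hp
    refine ⟨hp1, by omega, ?_⟩
    rw [hp1.pow_dvd_iff_le_factorization hm0, Dst_fac_add hm0 hc p]
    have : 1 ≤ c.factorization p := (hp1.dvd_iff_one_le_factorization hc0).1 hp2
    omega
  · obtain ⟨hp1, hp2⟩ := hS p hp
    rw [mem_Bd]
    refine ⟨hx, fun hd => ?_⟩
    obtain ⟨hd1, hd2⟩ := hG _ hd
    have hd0 : Nat.gcd x m ≠ 0 := fun h => hm0 (Nat.eq_zero_of_gcd_eq_zero_right h)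
    have h1 : p ^ (1 + (m / c).factorization p) ∣ Nat.gcd x m := by
      refine Nat.dvd_gcd hpx ?_
      rw [hp1.pow_dvd_iff_le_factorization hm0, Dst_fac_add hm0 hc p]
      have : 1 ≤ c.factorization p := (hp1.dvd_iff_one_le_factorization hc0).1 hp2
      omega
    rw [hp1.pow_dvd_iff_le_factorization hd0] at h1
    have h2 := Dst_fac_add hm0 hd1 p
    have h3 := Dst_fac_add hm0 hc p
    have hmd : m / Nat.gcd x m ≠ 0 := (Nat.div_pos (Nat.le_of_dvd (by omega) hd1) (Nat.pos_of_ne_zero hd0)).ne'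
    have h4 : c.factorization p ≤ (m / Nat.gcd x m).factorization p := (Nat.factorization_le_iff_dvd hc0 hmd).2 hd2 p
    omega

/-- the comparison of the ranges -/
private theorem Dst_y {ε : ℝ} (_hε : 0 < ε) (hε1 : ε ≤ 1) {m d : ℕ} (hm : 1 ≤ m) (hd : d ∣ m)
    (hd2 : (d : ℝ) ≤ (m : ℝ) ^ (ε / 16)) : (m : ℝ) ^ (1 - ε / 8) ≤ ((m / d : ℕ) : ℝ) ^ (1 - ε / 16) := by
  have hm1 : (1 : ℝ) ≤ m := by exact_mod_cast hm
  have hmp : (0 : ℝ) < m := by linarith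
  have hd0 : 0 < d := Nat.pos_of_dvd_of_pos hd (by omega)
  have hdp : (0 : ℝ) < d := by exact_mod_cast hd0
  have h1 : (m : ℝ) ^ (1 - ε / 16) ≤ ((m / d : ℕ) : ℝ) := by
    rw [Nat.cast_div hd hdp.ne', le_div_iff₀ hdp, Real.rpow_sub hmp, Real.rpow_one, div_mul_eq_mul_div, div_le_iff₀ (Real.rpow_pos_of_pos hmp _)]
    exact mul_le_mul_of_nonneg_left hd2 hmp.le
  calc (m : ℝ) ^ (1 - ε / 8) ≤ (m : ℝ) ^ ((1 - ε / 16) * (1 - ε / 16)) :=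
        Real.rpow_le_rpow_of_exponent_le hm1 (by nlinarith [sq_nonneg ε])
    _ = ((m : ℝ) ^ (1 - ε / 16)) ^ (1 - ε / 16) := Real.rpow_mul hmp.le _ _
    _ ≤ _ := Real.rpow_le_rpow (Real.rpow_nonneg hmp.le _) h1 (by linarith)

private theorem Dst_B1 {ε : ℝ} {m c d : ℕ} {ψ : DirichletCharacter ℂ c} (hc : c ∣ m) (hd : d ∣ m)
    (hy : (m : ℝ) ^ (1 - ε / 8) ≤ ((m / d : ℕ) : ℝ) ^ (1 - ε / 16)) (hP : Prt (m / d) ψ (ε / 16)) {S : Finset ℕ}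
    (hS : ∀ p ∈ S, p.Prime ∧ ψ (p : ZMod c) ≠ -1 ∧ ¬ p ∣ m ∧ (p : ℝ) ≤ (m : ℝ) ^ (1 - ε / 8)) :
    ∑ p ∈ S, 1 / (p : ℝ) ^ (1 + (m / c).factorization p) ≤ ε / 16 := by
  refine le_trans ?_ hP
  have h1 : ∑ p ∈ S, 1 / (p : ℝ) ^ (1 + (m / c).factorization p) = ∑ p ∈ S, 1 / (p : ℝ) :=
    sum_congr rfl fun p hp => by rw [Dst_fac_zero hc (hS p hp).2.2.1, add_zero, pow_one]
  rw [h1]
  refine sum_le_sum_of_subset_of_nonneg (fun p hp => ?_) fun _ _ _ => by positivity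
  obtain ⟨h2, h3, h4, h5⟩ := hS p hp
  rw [mem_Pr]
  exact ⟨h5.trans hy, h2, fun h => h4 (h.trans (Nat.div_dvd_of_dvd hd)), h3⟩

private theorem Dst_B2 {ε : ℝ} (hε : 0 < ε) (hε1 : ε ≤ 1) {m c : ℕ} (hm : 1 ≤ m) {ψ : DirichletCharacter ℂ c} (hc : c ∣ m) {G : Finset ℕ}
    (hB : ((Bd m G).card : ℝ) ≤ ε ^ 2 / 800 * m)
    (hG : ∀ d ∈ G, d ∣ m ∧ (d : ℝ) ≤ (m : ℝ) ^ (ε / 16) ∧ c ∣ m / d ∧ Prt (m / d) ψ (ε / 16)) {S : Finset ℕ}
    (hS : ∀ p ∈ S, p.Prime ∧ ψ (p : ZMod c) ≠ -1 ∧ ¬ p ∣ c ∧ p ∣ m ∧ (p : ℝ) ≤ (m : ℝ) ^ (1 - ε / 8)) :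
    ∑ p ∈ S, 1 / (p : ℝ) ^ (1 + (m / c).factorization p) ≤ ε / 16 + ε / 20 := by
  have hm0 : m ≠ 0 := by omega
  have h1 : ∑ p ∈ S, 1 / (p : ℝ) ^ (1 + (m / c).factorization p) = ∑ p ∈ S, 1 / (p : ℝ) ^ (1 + m.factorization p) :=
    sum_congr rfl fun p hp => by
      rw [Dst_fac_add hm0 hc p, Nat.factorization_eq_zero_of_not_dvd (hS p hp).2.2.1, zero_add]
  rw [h1]
  have h2 := cnt_avg m hm (Bd m G) S (fun p hp => ⟨(hS p hp).1, (hS p hp).2.2.2.1⟩) (ε ^ 2 / 800) (ε / 16) (by linarith) hB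
    (fun x hx hxB => ?_)
  · refine h2.trans ?_
    have h3 : Real.sqrt (2 * (ε ^ 2 / 800)) = ε / 20 := by
      rw [show 2 * (ε ^ 2 / 800) = (ε / 20) ^ 2 by ring, Real.sqrt_sq (by linarith)]
    rw [h3]
  · have hd : Nat.gcd x m ∈ G := by
      by_contra h
      exact hxB (mem_Bd.2 ⟨hx, h⟩)
    obtain ⟨hd1, hd2, hd3, hd4⟩ := hG _ hd
    have hd0 : Nat.gcd x m ≠ 0 := fun h => hm0 (Nat.eq_zero_of_gcd_eq_zero_right h)
    refine le_trans (sum_le_sum_of_subset_of_nonneg (fun p hp => ?_) fun _ _ _ => by positivity) hd4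
    rw [mem_filter] at hp
    obtain ⟨hp1, hp2⟩ := hp
    obtain ⟨h3, h4, h5, h6, h7⟩ := hS p hp1
    rw [mem_Pr]
    refine ⟨h7.trans (Dst_y hε hε1 hm hd1 hd2), h3, fun h => ?_, h4⟩
    have hmd : m / Nat.gcd x m ≠ 0 := (Nat.div_pos (Nat.le_of_dvd (by omega) hd1) (Nat.pos_of_ne_zero hd0)).ne'
    have h8 : 1 ≤ (m / Nat.gcd x m).factorization p := (h3.dvd_iff_one_le_factorization hmd).1 h
    have h9 : p ^ m.factorization p ∣ Nat.gcd x m := Nat.dvd_gcd hp2 (Nat.ordProj_dvd m p)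
    rw [h3.pow_dvd_iff_le_factorization hd0] at h9
    have h10 := Dst_fac_add hm0 hd1 p
    omega

private theorem Dst_C2 {ε : ℝ} (hε : 0 < ε) (hε1 : ε ≤ 1) {m c : ℕ} (hm : 1 ≤ m) (hm2 : 16 / ε ≤ m) (hc : c ∣ m) {S : Finset ℕ}
    (hS : ∀ p ∈ S, p.Prime ∧ ¬ p ∣ c ∧ p ∣ m ∧ (m : ℝ) ^ (1 - ε / 8) < p) :
    ∑ p ∈ S, 1 / (p : ℝ) ^ (1 + (m / c).factorization p) ≤ ε / 16 := by
  have hm0 : m ≠ 0 := by omega
  have hm1 : (1 : ℝ) ≤ m := by exact_mod_cast hm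
  have hmp : (0 : ℝ) < m := by linarith
  have hy : (m : ℝ) ≤ ((m : ℝ) ^ (1 - ε / 8)) ^ 2 := by
    rw [← Real.rpow_natCast, ← Real.rpow_mul hmp.le]
    calc (m : ℝ) = (m : ℝ) ^ (1 : ℝ) := (Real.rpow_one _).symm
      _ ≤ _ := Real.rpow_le_rpow_of_exponent_le hm1 (by push_cast; linarith)
  have hyp : 0 < (m : ℝ) ^ (1 - ε / 8) := Real.rpow_pos_of_pos hmp _
  have hcard : S.card ≤ 1 := by
    rw [card_le_one]
    intro p hp p' hp'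
    by_contra hne
    obtain ⟨h1, h2, h3, h4⟩ := hS p hp
    obtain ⟨h1', h2', h3', h4'⟩ := hS p' hp'
    have h5 : p * p' ∣ m := Nat.Coprime.mul_dvd_of_dvd_of_dvd ((Nat.coprime_primes h1 h1').2 hne) h3 h3'
    have h6 : ((p * p' : ℕ) : ℝ) ≤ m := by exact_mod_cast Nat.le_of_dvd (by omega) h5
    rw [Nat.cast_mul] at h6
    have h7 : ((m : ℝ) ^ (1 - ε / 8)) ^ 2 < (p : ℝ) * p' := by
      rw [sq]
      exact mul_lt_mul'' h4 h4' hyp.le hyp.le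
    linarith
  have hterm : ∀ p ∈ S, 1 / (p : ℝ) ^ (1 + (m / c).factorization p) ≤ 1 / m := fun p hp => by
    obtain ⟨h1, h2, h3, h4⟩ := hS p hp
    have h5 : (m / c).factorization p = m.factorization p := by
      rw [Dst_fac_add hm0 hc p, Nat.factorization_eq_zero_of_not_dvd h2, zero_add]
    have h6 : 1 ≤ m.factorization p := (h1.dvd_iff_one_le_factorization hm0).1 h3
    rw [h5]
    refine one_div_le_one_div_of_le hmp (hy.trans ?_)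
    have hp1 : (1 : ℝ) ≤ p := by exact_mod_cast h1.one_lt.le
    calc ((m : ℝ) ^ (1 - ε / 8)) ^ 2 ≤ (p : ℝ) ^ 2 := pow_le_pow_left₀ hyp.le h4.le 2
      _ ≤ _ := pow_le_pow_right₀ hp1 (by omega)
  refine (sum_le_card_nsmul _ _ _ hterm).trans ?_
  rw [nsmul_eq_mul]
  have h1 : (S.card : ℝ) ≤ 1 := by exact_mod_cast hcard
  have h2 : 1 / (m : ℝ) ≤ ε / 16 := by
    rw [div_le_div_iff₀ hmp (by norm_num)]
    rw [div_le_iff₀ hε] at hm2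
    linarith
  calc (S.card : ℝ) * (1 / m) ≤ 1 * (1 / m) := mul_le_mul_of_nonneg_right h1 (by positivity)
    _ ≤ ε / 16 := by rw [one_mul]; exact h2

private theorem Dst_log {ε : ℝ} (hε : 0 < ε) (hε1 : ε ≤ 1) : Real.log (1 / (1 - ε / 8)) ≤ ε / 7 := by
  have h1 : 0 < 1 - ε / 8 := by linarith
  have h2 := Real.log_le_sub_one_of_pos (one_div_pos.2 h1)
  refine h2.trans ?_
  rw [sub_le_iff_le_add, div_le_iff₀ h1]
  nlinarith

theorem dst (ε : ℝ) (hε : 0 < ε) (hε1 : ε ≤ 1) : ∃ m0 : ℕ, ∀ m : ℕ, m0 ≤ m →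
    ∀ (c : ℕ) (ψ : DirichletCharacter ℂ c), c ∣ m → ∀ G : Finset ℕ,
    ((Bd m G).card : ℝ) ≤ ε ^ 2 / 800 * m →
    (∀ d ∈ G, d ∣ m ∧ (d : ℝ) ≤ (m : ℝ) ^ (ε / 16) ∧ c ∣ m / d ∧ Prt (m / d) ψ (ε / 16)) →
    Dd m ψ ≤ ε / 2 := by
  classical
  obtain ⟨m1, hm1⟩ := pri_mert (1 - ε / 8) 1 (ε / 16) (by linarith) (by linarith) le_rfl (by linarith)
  refine ⟨max (max m1 1) ⌈16 / ε⌉₊, fun m hm c ψ hc G hB hG => ?_⟩
  have hmm1 : m1 ≤ m := (le_max_left _ _).trans ((le_max_left _ _).trans hm)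
  have hm1' : 1 ≤ m := (le_max_right _ _).trans ((le_max_left _ _).trans hm)
  have hm2 : 16 / ε ≤ m := (Nat.le_ceil _).trans (by exact_mod_cast (le_max_right _ _).trans hm)
  have hmp : (0 : ℝ) < m := by exact_mod_cast hm1'
  -- `G` is not empty
  obtain ⟨d, hd⟩ : ∃ d, d ∈ G := by
    by_contra hne
    push Not at hne
    have h1 : Bd m G = range m := by
      ext x
      rw [mem_Bd, mem_range]
      exact ⟨fun h => h.1, fun h => ⟨h, hne _⟩⟩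
    rw [h1, card_range] at hB
    have h2 : ε ^ 2 / 800 * m ≤ 1 / 800 * m := mul_le_mul_of_nonneg_right (by nlinarith) hmp.le
    linarith
  obtain ⟨hd1, hd2, hd3, hd4⟩ := hG d hd
  obtain ⟨T, hT, hD⟩ : ∃ T : Finset ℕ, (∀ p, p ∈ T ↔ (1 ≤ p ∧ p ≤ m) ∧ p.Prime ∧ ψ (p : ZMod c) ≠ -1) ∧
      Dd m ψ = ∑ p ∈ T, 1 / (p : ℝ) ^ (1 + (m / c).factorization p) :=
    ⟨_, fun p => by rw [mem_filter, mem_Icc], rfl⟩
  rw [hD]
  set f : ℕ → ℝ := fun p => 1 / (p : ℝ) ^ (1 + (m / c).factorization p) with hf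
  set y : ℝ := (m : ℝ) ^ (1 - ε / 8) with hy
  have s1 := sum_filter_add_sum_filter_not T (fun p => p ∣ c) f
  have s2 := sum_filter_add_sum_filter_not (T.filter fun p => ¬ p ∣ c) (fun p => p ∣ m) f
  have s3 := sum_filter_add_sum_filter_not ((T.filter fun p => ¬ p ∣ c).filter fun p => p ∣ m) (fun p => (p : ℝ) ≤ y) f
  have s4 := sum_filter_add_sum_filter_not ((T.filter fun p => ¬ p ∣ c).filter fun p => ¬ p ∣ m) (fun p => (p : ℝ) ≤ y) f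
  have hA : ∑ p ∈ T.filter (fun p => p ∣ c), f p ≤ ε / 400 :=
    Dst_A hε1 hε hm1' hc hB (fun d hd => ⟨(hG d hd).1, (hG d hd).2.2.1⟩) fun p hp => by
      rw [mem_filter, hT] at hp
      exact ⟨hp.1.2.1, hp.2⟩
  have hB2 : ∑ p ∈ ((T.filter fun p => ¬ p ∣ c).filter fun p => p ∣ m).filter (fun p : ℕ => (p : ℝ) ≤ y), f p ≤ ε / 16 + ε / 20 :=
    Dst_B2 hε hε1 hm1' (ψ := ψ) hc hB hG fun p hp => by
      rw [mem_filter, mem_filter, mem_filter, hT] at hp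
      exact ⟨hp.1.1.1.2.1, hp.1.1.1.2.2, hp.1.1.2, hp.1.2, hp.2⟩
  have hC2 : ∑ p ∈ ((T.filter fun p => ¬ p ∣ c).filter fun p => p ∣ m).filter (fun p : ℕ => ¬ (p : ℝ) ≤ y), f p ≤ ε / 16 :=
    Dst_C2 hε hε1 hm1' hm2 hc fun p hp => by
      rw [mem_filter, mem_filter, mem_filter, hT] at hp
      exact ⟨hp.1.1.1.2.1, hp.1.1.2, hp.1.2, not_le.1 hp.2⟩
  have hB1 : ∑ p ∈ ((T.filter fun p => ¬ p ∣ c).filter fun p => ¬ p ∣ m).filter (fun p : ℕ => (p : ℝ) ≤ y), f p ≤ ε / 16 :=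
    Dst_B1 (ψ := ψ) hc hd1 (Dst_y hε hε1 hm1' hd1 hd2) hd4 fun p hp => by
      rw [mem_filter, mem_filter, mem_filter, hT] at hp
      exact ⟨hp.1.1.1.2.1, hp.1.1.1.2.2, hp.1.2, hp.2⟩
  have hC1 : ∑ p ∈ ((T.filter fun p => ¬ p ∣ c).filter fun p => ¬ p ∣ m).filter (fun p : ℕ => ¬ (p : ℝ) ≤ y), f p ≤ ε / 7 + ε / 16 := by
    have h1 : ∑ p ∈ ((T.filter fun p => ¬ p ∣ c).filter fun p => ¬ p ∣ m).filter (fun p : ℕ => ¬ (p : ℝ) ≤ y), f p ≤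
        ∑ p ∈ PI m ((m : ℝ) ^ (1 - ε / 8)) ((m : ℝ) ^ (1 : ℝ)), 1 / (p : ℝ) := by
      have h2 : ∑ p ∈ ((T.filter fun p => ¬ p ∣ c).filter fun p => ¬ p ∣ m).filter (fun p : ℕ => ¬ (p : ℝ) ≤ y), f p =
          ∑ p ∈ ((T.filter fun p => ¬ p ∣ c).filter fun p => ¬ p ∣ m).filter (fun p : ℕ => ¬ (p : ℝ) ≤ y), 1 / (p : ℝ) := by
        refine sum_congr rfl fun p hp => ?_
        rw [mem_filter, mem_filter, mem_filter, hT] at hp
        simp only [hf]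
        rw [Dst_fac_zero hc hp.1.2, add_zero, pow_one]
      rw [h2]
      refine sum_le_sum_of_subset_of_nonneg (fun p hp => ?_) fun _ _ _ => by positivity
      rw [mem_filter, mem_filter, mem_filter, hT] at hp
      unfold PI
      rw [mem_filter, mem_Icc, Real.rpow_one, Nat.floor_natCast]
      exact ⟨hp.1.1.1.1, hp.1.1.1.2.1, hp.1.2, not_le.1 hp.2⟩
    have h3 := (abs_le.1 (hm1 m hmm1)).2
    have h4 := Dst_log hε hε1
    linarith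
  rw [← s1, ← s2, ← s3, ← s4]
  linarith

end Pool.Agent.H78.PE
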