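import Pool.Agent.H78.PE.Defs
import Pool.Agent.H78.PD.TotW

/-!
# PE, Harm: upper bound for the harmonic sum over the integers prime to `m`

`x = ⌊m^(1/100)⌋`.  `∑_{n ≤ x, (n,m)=1} 1/n ≤ ∏_{p ≤ x, p ∤ m} (1-1/p)⁻¹ = ∏_{p ≤ x} (1-1/p)⁻¹ · ∏_{p ≤ x, p ∣ m} (1-1/p)`.
The first product is `≤ A (1 + log x)` (`totW_mertens` in `PD/TotW.lean`, make it public).  The second is `(φ(m)/m) ∏_{p ∣ m, p > x} (1-1/p)⁻¹`, and there are at most `100` primes
`p > m^(1/100)`-ish dividing `m` (their product is `≤ m`; `p ≥ x + 1 > m^(1/100)`), each factor is `≤ 2`: so the second product is `≤ 2^100 φ(m)/m`.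
(For the first inequality: in the Pool e.g. `Pool.Agent.H36.IS` or Mathlib `Nat.smoothNumbers` / `EulerProduct.summable_and_hasSum_smoothNumbers_prod_primesBelow_tsum`; or by induction on the primes as in
`t6_step` of `PD/T6.lean`: adding a prime `q` to the set of allowed primes multiplies the sum over `n ≤ x` composed of allowed primes by at most `(1-1/q)⁻¹`.)
-/

set_option autoImplicit false

namespace Pool.Agent.H78.PE

open Finset
open Pool.Agent.H34PG (lam lam_val lam_mul lam_prime)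
open Pool.Agent.H11.LQ Pool.Agent.H78.PG Pool.Agent.H78.PD

private theorem Harm_mertens : ∃ A : ℝ, 0 < A ∧ ∀ N : ℕ, 1 ≤ N →
    ∏ p ∈ (N + 1).primesBelow, (1 - 1 / (p : ℝ))⁻¹ ≤ A * (1 + Real.log N) := by
  obtain ⟨c, hc⟩ := Pool.Agent.H36.IS.mertA
  have h1 := hc.eventually (gt_mem_nhds (show c < c + 1 by linarith))
  rw [Filter.eventually_atTop] at h1
  obtain ⟨n0, hn0⟩ := h1
  have hprod : ∀ n : ℕ, ∏ p ∈ (n + 1).primesBelow, (1 - 1 / (p : ℝ))⁻¹
      = Real.exp (Pool.Agent.H36.IS.fS n) := by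
    intro n
    unfold Pool.Agent.H36.IS.fS
    rw [Real.exp_sum]
    have : (n + 1).primesBelow = (range (n + 1)).filter Nat.Prime := rfl
    rw [this]
    refine Finset.prod_congr rfl (fun p hp => ?_)
    rw [mem_filter] at hp
    have hp2 : (2 : ℝ) ≤ p := by exact_mod_cast hp.2.two_le
    have h2 : 1 / (p : ℝ) ≤ 1 / 2 := one_div_le_one_div_of_le (by norm_num) hp2
    have h3 : 0 < 1 - 1 / (p : ℝ) := by linarith
    rw [Real.exp_neg, Real.exp_log h3]
  have hmono : ∀ a b : ℕ, a ≤ b → ∏ p ∈ (a + 1).primesBelow, (1 - 1 / (p : ℝ))⁻¹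
      ≤ ∏ p ∈ (b + 1).primesBelow, (1 - 1 / (p : ℝ))⁻¹ := by
    intro a b hab
    rw [hprod, hprod]
    apply Real.exp_le_exp.2
    unfold Pool.Agent.H36.IS.fS
    apply Finset.sum_le_sum_of_subset_of_nonneg
    · intro p hp
      rw [mem_filter, mem_range] at hp ⊢
      exact ⟨by omega, hp.2⟩
    · intro p hp _
      rw [mem_filter] at hp
      have hp2 : (2 : ℝ) ≤ p := by exact_mod_cast hp.2.two_le
      have h2 : 1 / (p : ℝ) ≤ 1 / 2 := one_div_le_one_div_of_le (by norm_num) hp2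
      have h4 : 0 < 1 / (p : ℝ) := by positivity
      have := Real.log_nonpos (show (0 : ℝ) ≤ 1 - 1 / p by linarith) (by linarith)
      linarith
  set n1 := max n0 3 with hn1
  set B := ∏ p ∈ (n1 + 1).primesBelow, (1 - 1 / (p : ℝ))⁻¹ with hB
  have hB0 : 0 < B := by
    rw [hB, hprod]
    exact Real.exp_pos _
  refine ⟨B + Real.exp (c + 1), by positivity, fun N hN => ?_⟩
  have hlog : 0 ≤ Real.log N := Real.log_nonneg (by exact_mod_cast hN)
  rcases Nat.lt_or_ge N n1 with h | h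
  · have h2 := hmono N n1 h.le
    have h3 : (0 : ℝ) < Real.exp (c + 1) := Real.exp_pos _
    calc ∏ p ∈ (N + 1).primesBelow, (1 - 1 / (p : ℝ))⁻¹ ≤ B := h2
      _ = B * 1 := by ring
      _ ≤ (B + Real.exp (c + 1)) * (1 + Real.log N) :=
        mul_le_mul (by linarith) (by linarith) (by norm_num) (by positivity)
  · have h2 := hn0 N ((le_max_left _ _).trans h)
    have hN3 : (3 : ℝ) ≤ N := by exact_mod_cast (le_max_right _ _).trans h
    have hlogpos : 0 < Real.log N := Real.log_pos (by linarith)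
    rw [hprod]
    have h3 : Pool.Agent.H36.IS.fS N ≤ (c + 1) + Real.log (Real.log N) := by linarith
    calc Real.exp (Pool.Agent.H36.IS.fS N) ≤ Real.exp ((c + 1) + Real.log (Real.log N)) :=
          Real.exp_le_exp.2 h3
      _ = Real.exp (c + 1) * Real.log N := by rw [Real.exp_add, Real.exp_log hlogpos]
      _ ≤ (B + Real.exp (c + 1)) * (1 + Real.log N) :=
        mul_le_mul (by linarith) (by linarith) hlogpos.le (by positivity)

/-- `n ↦ 1/n` as a monoid homomorphism -/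
private noncomputable def Harm_f : ℕ →* ℝ where
  toFun n := (n : ℝ)⁻¹
  map_one' := by simp
  map_mul' a b := by
    push_cast
    rw [mul_inv]

private theorem Harm_euler (P : Finset ℕ) (hP : ∀ p ∈ P, p.Prime) (T : Finset ℕ)
    (hT : ∀ a ∈ T, a ≠ 0 ∧ ∀ p ∈ a.primeFactorsList, p ∈ P) :
    ∑ a ∈ T, 1 / (a : ℝ) ≤ ∏ p ∈ P, (1 - 1 / (p : ℝ))⁻¹ := by
  have hf : ∀ {p : ℕ}, p.Prime → ‖Harm_f p‖ < 1 := by
    intro p hp
    have h2 : (2 : ℝ) ≤ p := by exact_mod_cast hp.two_le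
    change ‖(p : ℝ)⁻¹‖ < 1
    rw [Real.norm_eq_abs, abs_of_nonneg (by positivity)]
    exact inv_lt_one_of_one_lt₀ (by linarith)
  obtain ⟨-, h1⟩ := EulerProduct.summable_and_hasSum_factoredNumbers_prod_filter_prime_geometric hf P
  have h2 : HasSum (Set.indicator (Nat.factoredNumbers P) (fun n : ℕ => Harm_f n)) (∏ p ∈ P with p.Prime, (1 - Harm_f p)⁻¹) :=
    (hasSum_subtype_iff_indicator (f := fun n : ℕ => Harm_f n)).1 h1
  have h3 := sum_le_hasSum T (fun n _ => Set.indicator_nonneg (fun n _ => by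
    change (0 : ℝ) ≤ (n : ℝ)⁻¹
    positivity) n) h2
  have h4 : ∑ a ∈ T, Set.indicator (Nat.factoredNumbers P) (fun n : ℕ => Harm_f n) a = ∑ a ∈ T, 1 / (a : ℝ) := by
    refine sum_congr rfl fun a ha => ?_
    rw [Set.indicator_of_mem (show a ∈ Nat.factoredNumbers P from hT a ha)]
    change (a : ℝ)⁻¹ = 1 / (a : ℝ)
    rw [one_div]
  have h5 : ∏ p ∈ P with p.Prime, (1 - Harm_f p)⁻¹ = ∏ p ∈ P, (1 - 1 / (p : ℝ))⁻¹ := by
    rw [filter_true_of_mem hP]
    refine prod_congr rfl fun p _ => ?_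
    change (1 - (p : ℝ)⁻¹)⁻¹ = _
    rw [one_div]
  rw [h4, h5] at h3
  exact h3

/-- at most `100` primes larger than `x ≥ m^(1/100) - 1` divide `m` -/
private theorem Harm_big (m x : ℕ) (hm : 2 ≤ m) (hx : (m : ℝ) ^ (1 / 100 : ℝ) < (x : ℝ) + 1) :
    (m.primeFactors.filter (fun p => x < p)).card ≤ 100 := by
  by_contra hcon
  push Not at hcon
  set T := m.primeFactors.filter (fun p => x < p) with hT
  have hm1 : (1 : ℝ) < m := by exact_mod_cast hm
  have hm0 : (0 : ℝ) < m := by linarith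
  obtain ⟨y, hy⟩ : ∃ y : ℝ, y = (m : ℝ) ^ (1 / 100 : ℝ) := ⟨_, rfl⟩
  rw [← hy] at hx
  have hy1 : 1 < y := by
    rw [hy]
    exact Real.one_lt_rpow hm1 (by norm_num)
  have hyc : y ^ 100 = m := by
    rw [hy, ← Real.rpow_natCast, ← Real.rpow_mul hm0.le]
    norm_num
  have h1 : y ^ T.card ≤ ∏ p ∈ T, (p : ℝ) := by
    rw [← prod_const]
    refine prod_le_prod (fun _ _ => by linarith) fun p hp => ?_
    rw [hT, mem_filter] at hp
    have h2 : (x : ℝ) + 1 ≤ p := by exact_mod_cast hp.2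
    linarith
  have h2 : (∏ p ∈ T, (p : ℝ)) ≤ m := by
    have h3 : ∏ p ∈ T, p ∣ m := (prod_dvd_prod_of_subset _ _ _ (filter_subset _ _)).trans (Nat.prod_primeFactors_dvd m)
    have h4 := Nat.le_of_dvd (by omega) h3
    have h5 : ((∏ p ∈ T, p : ℕ) : ℝ) ≤ m := by exact_mod_cast h4
    rwa [Nat.cast_prod] at h5
  have h3 : y ^ 100 < y ^ T.card := pow_lt_pow_right₀ hy1 hcon
  rw [hyc] at h3
  linarith

theorem cop_harm_up : ∃ C : ℝ, 0 < C ∧ ∃ m0 : ℕ, ∀ m : ℕ, m0 ≤ m →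
    ∑ a ∈ cop m ⌊(m : ℝ) ^ (1 / 100 : ℝ)⌋₊, 1 / (a : ℝ) ≤ C * (m.totient / m * Real.log m) := by
  obtain ⟨A, hA, hmert⟩ := Harm_mertens
  obtain ⟨W, hW⟩ : ∃ W : ℝ, W = (2 : ℝ) ^ 100 := ⟨_, rfl⟩
  have hWpos : 0 < W := by
    rw [hW]
    positivity
  refine ⟨2 * A * W, by positivity, 3, fun m hm => ?_⟩
  have hm1 : (1 : ℝ) < m := by
    have : 1 < m := by omega
    exact_mod_cast this
  have hm0 : (0 : ℝ) < m := by linarith
  set x := ⌊(m : ℝ) ^ (1 / 100 : ℝ)⌋₊ with hx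
  have hy1 : 1 ≤ (m : ℝ) ^ (1 / 100 : ℝ) := Real.one_le_rpow hm1.le (by norm_num)
  have hx1 : 1 ≤ x := Nat.le_floor (by rw [Nat.cast_one]; exact hy1)
  have hxlt : (m : ℝ) ^ (1 / 100 : ℝ) < (x : ℝ) + 1 := Nat.lt_floor_add_one _
  have hxle : (x : ℝ) ≤ (m : ℝ) ^ (1 / 100 : ℝ) := Nat.floor_le (by positivity)
  have hlogx : Real.log x ≤ Real.log m := by
    have h0 : (0 : ℝ) < x := by exact_mod_cast hx1
    refine Real.log_le_log h0 (hxle.trans ?_)
    calc (m : ℝ) ^ (1 / 100 : ℝ) ≤ (m : ℝ) ^ (1 : ℝ) := Real.rpow_le_rpow_of_exponent_le hm1.le (by norm_num)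
      _ = m := Real.rpow_one _
  have hlogm : 1 ≤ Real.log m := by
    rw [Real.le_log_iff_exp_le hm0]
    have h3 : (3 : ℝ) ≤ m := by exact_mod_cast hm
    have := Real.exp_one_lt_d9
    linarith
  -- the primes
  have hpos : ∀ p : ℕ, p.Prime → 0 < 1 - 1 / (p : ℝ) ∧ 1 - 1 / (p : ℝ) ≤ 1 ∧ (1 - 1 / (p : ℝ))⁻¹ ≤ 2 := by
    intro p hp
    have hp2 : (2 : ℝ) ≤ p := by exact_mod_cast hp.two_le
    have h2 : 1 / (p : ℝ) ≤ 1 / 2 := one_div_le_one_div_of_le (by norm_num) hp2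
    have h3 : 0 < 1 / (p : ℝ) := by positivity
    refine ⟨by linarith, by linarith, ?_⟩
    rw [inv_le_comm₀ (by linarith) (by norm_num)]
    linarith
  set PB := (x + 1).primesBelow with hPB
  have hPBp : ∀ p ∈ PB, p.Prime ∧ p ≤ x := by
    intro p hp
    rw [hPB, Nat.mem_primesBelow] at hp
    exact ⟨hp.2, by omega⟩
  have e1 : ∑ a ∈ cop m x, 1 / (a : ℝ) ≤ ∏ p ∈ PB.filter (fun p => ¬ p ∣ m), (1 - 1 / (p : ℝ))⁻¹ := by
    refine Harm_euler _ (fun p hp => (hPBp p (mem_filter.1 hp).1).1) _ fun a ha => ?_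
    unfold cop at ha
    rw [mem_filter, mem_Icc] at ha
    obtain ⟨⟨ha1, hax⟩, hac⟩ := ha
    refine ⟨by omega, fun p hp => ?_⟩
    rw [Nat.mem_primeFactorsList (by omega)] at hp
    rw [mem_filter, hPB, Nat.mem_primesBelow]
    have h1 := Nat.le_of_dvd (by omega) hp.2
    refine ⟨⟨by omega, hp.1⟩, fun h => ?_⟩
    have h2 := Nat.dvd_gcd hp.2 h
    rw [hac] at h2
    exact hp.1.one_lt.ne' (Nat.dvd_one.1 h2)
  have e2 : (∏ p ∈ PB.filter (fun p => p ∣ m), (1 - 1 / (p : ℝ))⁻¹) * ∏ p ∈ PB.filter (fun p => ¬ p ∣ m), (1 - 1 / (p : ℝ))⁻¹ =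
      ∏ p ∈ PB, (1 - 1 / (p : ℝ))⁻¹ := prod_filter_mul_prod_filter_not _ _ _
  have e3 := hmert x hx1
  rw [← hPB, ← e2] at e3
  -- the product over the small primes dividing m
  have e4 : PB.filter (fun p => p ∣ m) = m.primeFactors.filter (fun p => ¬ x < p) := by
    ext p
    rw [mem_filter, mem_filter, hPB, Nat.mem_primesBelow, Nat.mem_primeFactors]
    constructor
    · rintro ⟨⟨h1, h2⟩, h3⟩
      exact ⟨⟨h2, h3, by omega⟩, by omega⟩
    · rintro ⟨⟨h1, h2, h3⟩, h4⟩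
      exact ⟨⟨by omega, h1⟩, h2⟩
  have e5 : (m.totient : ℝ) / m = ∏ p ∈ m.primeFactors, (1 - 1 / (p : ℝ)) := by
    have h1 := Nat.totient_eq_mul_prod_factors m
    have h2 : (m.totient : ℝ) = m * ∏ p ∈ m.primeFactors, (1 - (p : ℝ)⁻¹) := by
      have h3 := congrArg (fun t : ℚ => (t : ℝ)) h1
      push_cast at h3
      exact h3
    rw [h2, mul_div_assoc, mul_comm, div_mul_cancel₀ _ hm0.ne']
    simp only [one_div]
  have e6 : (∏ p ∈ m.primeFactors.filter (fun p => x < p), (1 - 1 / (p : ℝ))) * ∏ p ∈ m.primeFactors.filter (fun p => ¬ x < p), (1 - 1 / (p : ℝ)) =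
      ∏ p ∈ m.primeFactors, (1 - 1 / (p : ℝ)) := prod_filter_mul_prod_filter_not _ _ _
  have e7 : (∏ p ∈ m.primeFactors.filter (fun p => x < p), (1 - 1 / (p : ℝ))⁻¹) ≤ W := by
    have h1 : (∏ p ∈ m.primeFactors.filter (fun p => x < p), (1 - 1 / (p : ℝ))⁻¹) ≤ ∏ p ∈ m.primeFactors.filter (fun p => x < p), (2 : ℝ) := by
      refine prod_le_prod (fun p hp => ?_) fun p hp => ?_
      · exact (inv_pos.2 (hpos p (Nat.prime_of_mem_primeFactors (mem_filter.1 hp).1)).1).le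
      · exact (hpos p (Nat.prime_of_mem_primeFactors (mem_filter.1 hp).1)).2.2
    rw [prod_const] at h1
    refine h1.trans ?_
    rw [hW]
    exact pow_le_pow_right₀ (by norm_num) (Harm_big m x (by omega) hxlt)
  obtain ⟨U, hU⟩ : ∃ U : ℝ, U = ∏ p ∈ m.primeFactors.filter (fun p => x < p), (1 - 1 / (p : ℝ)) := ⟨_, rfl⟩
  obtain ⟨V, hV⟩ : ∃ V : ℝ, V = ∏ p ∈ m.primeFactors.filter (fun p => ¬ x < p), (1 - 1 / (p : ℝ)) := ⟨_, rfl⟩
  obtain ⟨R, hR⟩ : ∃ R : ℝ, R = ∏ p ∈ PB.filter (fun p => ¬ p ∣ m), (1 - 1 / (p : ℝ))⁻¹ := ⟨_, rfl⟩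
  have hUpos : 0 < U := by
    rw [hU]
    exact prod_pos fun p hp => (hpos p (Nat.prime_of_mem_primeFactors (mem_filter.1 hp).1)).1
  have hVpos : 0 < V := by
    rw [hV]
    exact prod_pos fun p hp => (hpos p (Nat.prime_of_mem_primeFactors (mem_filter.1 hp).1)).1
  rw [prod_inv_distrib, ← hU] at e7
  rw [← hU, ← hV, ← e5] at e6
  rw [e4, prod_inv_distrib, ← hV, ← hR] at e3
  rw [← hR] at e1
  -- R ≤ V A (1 + log x), V = (φ/m) / U ≤ W φ/m
  have f1 : R ≤ V * (A * (1 + Real.log x)) := by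
    calc R = V * (V⁻¹ * R) := by
          field_simp
      _ ≤ V * (A * (1 + Real.log x)) := mul_le_mul_of_nonneg_left e3 hVpos.le
  have f2 : V ≤ W * (m.totient / m) := by
    calc V = U⁻¹ * (U * V) := by
          field_simp
      _ = U⁻¹ * (m.totient / m) := by rw [e6]
      _ ≤ W * (m.totient / m) := mul_le_mul_of_nonneg_right e7 (by positivity)
  have f3 : A * (1 + Real.log x) ≤ A * (2 * Real.log m) := mul_le_mul_of_nonneg_left (by linarith) hA.le
  have f4 : 0 ≤ A * (1 + Real.log x) := by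
    have : 0 ≤ Real.log x := Real.log_nonneg (by exact_mod_cast hx1)
    positivity
  calc ∑ a ∈ cop m x, 1 / (a : ℝ) ≤ R := e1
    _ ≤ V * (A * (1 + Real.log x)) := f1
    _ ≤ (W * (m.totient / m)) * (A * (2 * Real.log m)) := mul_le_mul f2 f3 f4 (by positivity)
    _ = 2 * A * W * (m.totient / m * Real.log m) := by ring

end Pool.Agent.H78.PE
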