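import Pool.Agent.H78.PE.Harm
import Pool.Agent.H78.PD.T6

/-!
# PE, SmallP: the small primes where `χ` is not `-1`

`v(a) = λ(a) χ(a)` (`vv m χ a`), `= ±1` for `a` prime to `m`; `k = cc m (FC m η) χ`, `|k|² = 1 - wout ≤ 1` (`wout_eq`), `x1 = ⌊m^(1/100)⌋`, `x2 = ⌊m^(1/200)⌋`, `E = (φ(m)/m) log m`.
* `t6_D` (`PD/T6.lean`): `D = ∑_{a ∈ cop m x1} |v(a) - k|²/a ≤ C1 w E`, `w = wout m η {χ}`.
* `B'` = the primes `p ≤ m^(1/200)`, `p ∤ m`, `χ(p) ≠ -1`; so `χ(p) = 1` (`χ² = 1`, `p` prime to `m`) and `v(p a) = - v(a)`.  For `p ∈ B'` and `a ∈ cop m x2`: `p a ∈ cop m x1` and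
  `|v(a) - k|² + |v(p a) - k|² = 2 |v(a)|² + 2 |k|² ≥ 2` (parallelogram).
* `β = ∑_{B'} 1/p`, `S2 = ∑_{a ∈ cop m x2} 1/a ≥ E/400` (`cop_harm`, as in `t6`), `S = ∑_{n ∈ cop m x1} 1/n ≤ C2 E` (`cop_harm_up`):
  `2 β S2 ≤ ∑_p (1/p) ∑_a |v(a)-k|²/a + ∑_p ∑_a |v(pa)-k|²/(pa) ≤ β D + ∑_{n ∈ cop m x1} (|v(n)-k|²/n) #{p ∈ B' : p ∣ n}`
  and by Cauchy-Schwarz the last sum is `≤ (∑ |v(n)-k|⁴/n)^(1/2) (∑_n #{p ∈ B' : p ∣ n}²/n)^(1/2) ≤ (4 D)^(1/2) ((β + β²) S)^(1/2)`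
  (`|v - k| ≤ 2`; `#{..}² = ∑_{p,p'}`, `∑_{n : p ∣ n} 1/n ≤ S/p`, `∑_{n : p p' ∣ n} 1/n ≤ S/(p p')` for `p ≠ p'`, the cofactor is in `cop m x1`).
* So `β/200 ≤ β C1 w + 2 (C1 C2 w (β + β²))^(1/2)`.  If `C1 w ≤ 1/400`: `β² ≤ C3 w (β + β²)`, `C3 = 640000 C1 C2`; if also `C3 w ≤ 1/2`: `β ≤ 2 C3 w`.
-/

set_option autoImplicit false

namespace Pool.Agent.H78.PE

open Finset
open Pool.Agent.H34PG (lam lam_val lam_mul lam_prime)
open Pool.Agent.H11.LQ Pool.Agent.H78.PG Pool.Agent.H78.PD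

/-- multiples of `d` in a set closed under divisors -/
private theorem SmallP_div (C : Finset ℕ) (hdiv : ∀ d n : ℕ, d ∣ n → n ∈ C → n / d ∈ C)
    (d : ℕ) (hd : 1 ≤ d) :
    ∑ n ∈ C.filter (fun n => d ∣ n), 1 / (n : ℝ) ≤ 1 / (d : ℝ) * ∑ a ∈ C, 1 / (a : ℝ) := by
  classical
  have e1 : ∑ a ∈ C.filter (fun a => d ∣ a), 1 / (a : ℝ) =
      ∑ a ∈ C.filter (fun a => d ∣ a), 1 / (d : ℝ) * (1 / ((a / d : ℕ) : ℝ)) := by
    refine sum_congr rfl fun a ha => ?_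
    rw [mem_filter] at ha
    obtain ⟨b, rfl⟩ := ha.2
    rw [Nat.mul_div_cancel_left b hd]
    push_cast
    rw [one_div_mul_one_div]
  have e2 : ∑ a ∈ C.filter (fun a => d ∣ a), 1 / ((a / d : ℕ) : ℝ) =
      ∑ b ∈ (C.filter (fun a => d ∣ a)).image (fun a => a / d), 1 / (b : ℝ) := by
    rw [sum_image]
    intro a ha b hb hab
    have ha1 := (mem_filter.mp (mem_coe.mp ha)).2
    have hb1 := (mem_filter.mp (mem_coe.mp hb)).2
    obtain ⟨c, rfl⟩ := ha1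
    obtain ⟨e, rfl⟩ := hb1
    simp only at hab
    rw [Nat.mul_div_cancel_left c hd, Nat.mul_div_cancel_left e hd] at hab
    rw [hab]
  rw [e1, ← mul_sum, e2]
  refine mul_le_mul_of_nonneg_left ?_ (by positivity)
  refine sum_le_sum_of_subset_of_nonneg ?_ fun _ _ _ => by positivity
  intro b hb
  rw [mem_image] at hb
  obtain ⟨a, ha, rfl⟩ := hb
  rw [mem_filter] at ha
  exact hdiv d a ha.2 ha.1

/-- exchange of the sums over `p` and its multiples -/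
private theorem SmallP_swap (C P : Finset ℕ) (g : ℕ → ℝ) :
    ∑ p ∈ P, ∑ n ∈ C.filter (fun n => p ∣ n), g n =
      ∑ n ∈ C, g n * ((P.filter (fun p => p ∣ n)).card : ℝ) := by
  classical
  simp only [sum_filter]
  rw [sum_comm]
  refine sum_congr rfl fun n _ => ?_
  rw [← sum_filter, sum_const, nsmul_eq_mul, mul_comm]

/-- the second moment of the number of prime factors in `P` -/
private theorem SmallP_sq (C P : Finset ℕ) (hdiv : ∀ d n : ℕ, d ∣ n → n ∈ C → n / d ∈ C)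
    (hP : ∀ p ∈ P, p.Prime) (S β : ℝ) (hS : ∑ a ∈ C, 1 / (a : ℝ) = S)
    (hβ : ∑ p ∈ P, 1 / (p : ℝ) = β) :
    ∑ n ∈ C, ((P.filter (fun p => p ∣ n)).card : ℝ) ^ 2 / n ≤ (β + β ^ 2) * S := by
  classical
  have hS0 : 0 ≤ S := by
    rw [← hS]
    exact sum_nonneg fun _ _ => by positivity
  have e1 : ∑ n ∈ C, ((P.filter (fun p => p ∣ n)).card : ℝ) ^ 2 / n =
      ∑ p ∈ P, ∑ n ∈ C.filter (fun n => p ∣ n), 1 / (n : ℝ) *
        ((P.filter (fun q => q ∣ n)).card : ℝ) := by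
    rw [SmallP_swap C P (fun n => 1 / (n : ℝ) * ((P.filter (fun q => q ∣ n)).card : ℝ))]
    refine sum_congr rfl fun n _ => ?_
    ring
  have e2 : ∀ p ∈ P, ∑ n ∈ C.filter (fun n => p ∣ n), 1 / (n : ℝ) *
      ((P.filter (fun q => q ∣ n)).card : ℝ) ≤ 1 / (p : ℝ) * S + 1 / (p : ℝ) * (β * S) := by
    intro p hp
    rw [← SmallP_swap (C.filter (fun n => p ∣ n)) P (fun n => 1 / (n : ℝ))]
    have h1 : ∀ q ∈ P, ∑ n ∈ (C.filter (fun n => p ∣ n)).filter (fun n => q ∣ n), 1 / (n : ℝ) ≤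
        (if q = p then 1 / (p : ℝ) * S else 0) + 1 / (p : ℝ) * (1 / (q : ℝ) * S) := by
      intro q hq
      by_cases hqp : q = p
      · rw [if_pos hqp]
        have h2 : ∑ n ∈ (C.filter (fun n => p ∣ n)).filter (fun n => q ∣ n), 1 / (n : ℝ) ≤
            ∑ n ∈ C.filter (fun n => p ∣ n), 1 / (n : ℝ) :=
          sum_le_sum_of_subset_of_nonneg (filter_subset _ _) fun _ _ _ => by positivity
        have h3 := SmallP_div C hdiv p (hP p hp).one_lt.le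
        rw [hS] at h3
        have h4 : 0 ≤ 1 / (p : ℝ) * (1 / (q : ℝ) * S) := by positivity
        linarith
      · rw [if_neg hqp, zero_add]
        have h2 : (C.filter (fun n => p ∣ n)).filter (fun n => q ∣ n) ⊆
            C.filter (fun n => p * q ∣ n) := by
          intro n hn
          rw [mem_filter, mem_filter] at hn
          rw [mem_filter]
          refine ⟨hn.1.1, ?_⟩
          exact Nat.Coprime.mul_dvd_of_dvd_of_dvd
            ((Nat.coprime_primes (hP p hp) (hP q hq)).mpr fun h => hqp h.symm) hn.1.2 hn.2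
        have h3 : ∑ n ∈ (C.filter (fun n => p ∣ n)).filter (fun n => q ∣ n), 1 / (n : ℝ) ≤
            ∑ n ∈ C.filter (fun n => p * q ∣ n), 1 / (n : ℝ) :=
          sum_le_sum_of_subset_of_nonneg h2 fun _ _ _ => by positivity
        have h4 := SmallP_div C hdiv (p * q) (Nat.mul_pos (hP p hp).pos (hP q hq).pos)
        rw [hS] at h4
        refine h3.trans (h4.trans (le_of_eq ?_))
        push_cast
        rw [← one_div_mul_one_div, mul_assoc]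
    refine (sum_le_sum h1).trans ?_
    rw [sum_add_distrib]
    refine add_le_add ?_ ?_
    · rw [sum_ite_eq' P p (fun _ => 1 / (p : ℝ) * S), if_pos hp]
    · rw [← mul_sum, ← sum_mul, hβ]
  rw [e1]
  refine (sum_le_sum e2).trans (le_of_eq ?_)
  rw [sum_add_distrib, ← sum_mul, ← sum_mul, hβ]
  ring

/-- the core inequality -/
private theorem SmallP_core (C1 C2 P : Finset ℕ) (f : ℕ → ℂ) (k : ℂ) (hk : ‖k‖ ≤ 1)
    (h1 : ∀ n ∈ C1, ‖f n‖ = 1) (hsub : C2 ⊆ C1) (hP : ∀ p ∈ P, p.Prime)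
    (hmul : ∀ p ∈ P, ∀ a ∈ C2, p * a ∈ C1 ∧ f (p * a) = -f a)
    (hdiv : ∀ d n : ℕ, d ∣ n → n ∈ C1 → n / d ∈ C1) (S2 S D β : ℝ)
    (hS2 : ∑ a ∈ C2, 1 / (a : ℝ) = S2) (hS : ∑ a ∈ C1, 1 / (a : ℝ) = S)
    (hD : ∑ a ∈ C1, ‖f a - k‖ ^ 2 / a = D) (hβ : ∑ p ∈ P, 1 / (p : ℝ) = β) :
    2 * β * S2 ≤ β * D + Real.sqrt (4 * D * ((β + β ^ 2) * S)) := by
  classical
  have hβ0 : 0 ≤ β := by
    rw [← hβ]
    exact sum_nonneg fun _ _ => by positivity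
  -- the parallelogram law
  have hpar : ∀ p ∈ P, ∀ a ∈ C2, 2 ≤ ‖f a - k‖ ^ 2 + ‖f (p * a) - k‖ ^ 2 := by
    intro p hp a ha
    rw [(hmul p hp a ha).2]
    have e1 : ‖-f a - k‖ = ‖f a + k‖ := by
      rw [← norm_neg]
      congr 1
      ring
    rw [e1]
    have e2 := parallelogram_law_with_norm ℝ (f a) k
    rw [h1 a (hsub ha)] at e2
    nlinarith [norm_nonneg k, sq_nonneg ‖k‖]
  have hstep1 : 2 * β * S2 ≤ β * ∑ a ∈ C2, ‖f a - k‖ ^ 2 / a +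
      ∑ p ∈ P, ∑ a ∈ C2, ‖f (p * a) - k‖ ^ 2 / ((p * a : ℕ) : ℝ) := by
    have e1 : 2 * β * S2 = ∑ p ∈ P, ∑ a ∈ C2, 1 / (p : ℝ) * (1 / (a : ℝ)) * 2 := by
      rw [← hβ, ← hS2, mul_assoc, sum_mul_sum, mul_sum]
      refine sum_congr rfl fun p _ => ?_
      rw [mul_sum]
      refine sum_congr rfl fun a _ => ?_
      ring
    have e2 : β * ∑ a ∈ C2, ‖f a - k‖ ^ 2 / a =
        ∑ p ∈ P, ∑ a ∈ C2, 1 / (p : ℝ) * (1 / (a : ℝ)) * ‖f a - k‖ ^ 2 := by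
      rw [← hβ, sum_mul_sum]
      refine sum_congr rfl fun p _ => sum_congr rfl fun a _ => ?_
      ring
    have e3 : ∑ p ∈ P, ∑ a ∈ C2, ‖f (p * a) - k‖ ^ 2 / ((p * a : ℕ) : ℝ) =
        ∑ p ∈ P, ∑ a ∈ C2, 1 / (p : ℝ) * (1 / (a : ℝ)) * ‖f (p * a) - k‖ ^ 2 := by
      refine sum_congr rfl fun p _ => sum_congr rfl fun a _ => ?_
      push_cast
      rw [one_div_mul_one_div]
      ring
    rw [e1, e2, e3, ← sum_add_distrib]
    refine sum_le_sum fun p hp => ?_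
    rw [← sum_add_distrib]
    refine sum_le_sum fun a ha => ?_
    rw [← mul_add]
    exact mul_le_mul_of_nonneg_left (hpar p hp a ha) (by positivity)
  have hstep2 : ∑ a ∈ C2, ‖f a - k‖ ^ 2 / a ≤ D := by
    rw [← hD]
    exact sum_le_sum_of_subset_of_nonneg hsub fun _ _ _ => by positivity
  have hstep3 : ∑ p ∈ P, ∑ a ∈ C2, ‖f (p * a) - k‖ ^ 2 / ((p * a : ℕ) : ℝ) ≤
      ∑ n ∈ C1, ‖f n - k‖ ^ 2 / n * ((P.filter (fun p => p ∣ n)).card : ℝ) := by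
    rw [← SmallP_swap C1 P (fun n => ‖f n - k‖ ^ 2 / (n : ℝ))]
    refine sum_le_sum fun p hp => ?_
    have e1 : ∑ a ∈ C2, ‖f (p * a) - k‖ ^ 2 / ((p * a : ℕ) : ℝ) =
        ∑ n ∈ C2.image (fun a => p * a), ‖f n - k‖ ^ 2 / (n : ℝ) := by
      rw [sum_image]
      intro a _ b _ hab
      exact Nat.eq_of_mul_eq_mul_left (hP p hp).pos hab
    rw [e1]
    refine sum_le_sum_of_subset_of_nonneg ?_ fun _ _ _ => by positivity
    intro n hn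
    rw [mem_image] at hn
    obtain ⟨a, ha, rfl⟩ := hn
    rw [mem_filter]
    exact ⟨(hmul p hp a ha).1, dvd_mul_right _ _⟩
  have hstep4 : (∑ n ∈ C1, ‖f n - k‖ ^ 2 / n * ((P.filter (fun p => p ∣ n)).card : ℝ)) ^ 2 ≤
      (∑ n ∈ C1, 4 * (‖f n - k‖ ^ 2 / n)) *
        ∑ n ∈ C1, ((P.filter (fun p => p ∣ n)).card : ℝ) ^ 2 / n := by
    apply Finset.sum_sq_le_sum_mul_sum_of_sq_le_mul
    · intro i _
      positivity
    · intro i _
      positivity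
    · intro n hn
      have e1 : ‖f n - k‖ ≤ 2 := by
        refine (norm_sub_le _ _).trans ?_
        rw [h1 n hn]
        linarith
      have e2 : ‖f n - k‖ ^ 2 ≤ 4 := by
        have := norm_nonneg (f n - k)
        nlinarith
      have e3 : (‖f n - k‖ ^ 2 / (n : ℝ) * ((P.filter (fun p => p ∣ n)).card : ℝ)) ^ 2 =
          ‖f n - k‖ ^ 2 * ((‖f n - k‖ ^ 2 / n) *
            (((P.filter (fun p => p ∣ n)).card : ℝ) ^ 2 / n)) := by
        ring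
      have e4 : 4 * (‖f n - k‖ ^ 2 / (n : ℝ)) * (((P.filter (fun p => p ∣ n)).card : ℝ) ^ 2 / n) =
          4 * ((‖f n - k‖ ^ 2 / n) * (((P.filter (fun p => p ∣ n)).card : ℝ) ^ 2 / n)) := by
        ring
      rw [e3, e4]
      exact mul_le_mul_of_nonneg_right e2 (by positivity)
  rw [← mul_sum, hD] at hstep4
  have hsq := SmallP_sq C1 P hdiv hP S β hS hβ
  have hD0 : 0 ≤ D := by
    rw [← hD]
    exact sum_nonneg fun _ _ => by positivity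
  have hstep5 : ∑ n ∈ C1, ‖f n - k‖ ^ 2 / n * ((P.filter (fun p => p ∣ n)).card : ℝ) ≤
      Real.sqrt (4 * D * ((β + β ^ 2) * S)) := by
    refine Real.le_sqrt_of_sq_le (hstep4.trans ?_)
    exact mul_le_mul_of_nonneg_left hsq (by positivity)
  have hstep6 : β * ∑ a ∈ C2, ‖f a - k‖ ^ 2 / a ≤ β * D :=
    mul_le_mul_of_nonneg_left hstep2 hβ0
  linarith

/-- the final computation -/
private theorem SmallP_fin (K1 K2 w E S2 S D β : ℝ) (hK1 : 0 < K1) (hK2 : 0 < K2) (hw : 0 ≤ w)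
    (hE : 0 < E) (hβ : 0 ≤ β) (hS2 : E / 400 ≤ S2) (hS : S ≤ K2 * E) (hD : D ≤ K1 * w * E)
    (hS0 : 0 ≤ S)
    (hw1 : K1 * w ≤ 1 / 400) (hw2 : 640000 * K1 * K2 * w ≤ 1 / 2)
    (h : 2 * β * S2 ≤ β * D + Real.sqrt (4 * D * ((β + β ^ 2) * S))) :
    β ≤ 2 * (640000 * K1 * K2) * w := by
  have h1 : 2 * β * (E / 400) ≤ 2 * β * S2 := mul_le_mul_of_nonneg_left hS2 (by positivity)
  have h2 : β * D ≤ β * (K1 * w * E) := mul_le_mul_of_nonneg_left hD hβ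
  have h3 : Real.sqrt (4 * D * ((β + β ^ 2) * S)) ≤
      E * Real.sqrt (4 * (K1 * w) * ((β + β ^ 2) * K2)) := by
    have e1 : E * Real.sqrt (4 * (K1 * w) * ((β + β ^ 2) * K2)) =
        Real.sqrt (E ^ 2 * (4 * (K1 * w) * ((β + β ^ 2) * K2))) := by
      rw [Real.sqrt_mul (sq_nonneg E), Real.sqrt_sq hE.le]
    rw [e1]
    refine Real.sqrt_le_sqrt ?_
    have e2 : 4 * D * ((β + β ^ 2) * S) ≤ 4 * (K1 * w * E) * ((β + β ^ 2) * (K2 * E)) := by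
      gcongr
    refine e2.trans (le_of_eq ?_)
    ring
  have h4 : β * (K1 * w * E) ≤ β * (1 / 400 * E) := by gcongr
  have h5 : E * (β / 400) ≤ E * Real.sqrt (4 * (K1 * w) * ((β + β ^ 2) * K2)) := by
    have e1 : 2 * β * (E / 400) = E * (β / 400) + β * (1 / 400 * E) := by ring
    linarith
  have h6 : β / 400 ≤ Real.sqrt (4 * (K1 * w) * ((β + β ^ 2) * K2)) :=
    le_of_mul_le_mul_left h5 hE
  have h7 : (β / 400) ^ 2 ≤ 4 * (K1 * w) * ((β + β ^ 2) * K2) := by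
    have e0 : 0 ≤ 4 * (K1 * w) * ((β + β ^ 2) * K2) := by positivity
    have e1 := pow_le_pow_left₀ (by positivity) h6 2
    rwa [Real.sq_sqrt e0] at e1
  rcases hβ.eq_or_lt with hb | hb
  · rw [← hb]
    positivity
  · obtain ⟨t, ht⟩ : ∃ t, t = 640000 * K1 * K2 * w := ⟨_, rfl⟩
    rw [← ht] at hw2
    have h8 : β * β ≤ β * (t * (1 + β)) := by
      rw [ht]
      nlinarith
    have h9 := le_of_mul_le_mul_left h8 hb
    have h10 : t * (1 + β) = t + t * β := by ring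
    have h11 : t * β ≤ 1 / 2 * β := mul_le_mul_of_nonneg_right hw2 hb.le
    have h12 : 2 * (640000 * K1 * K2) * w = 2 * t := by
      rw [ht]
      ring
    rw [h12]
    linarith

open Classical in
theorem small_p : ∃ δ0 C : ℝ, 0 < δ0 ∧ 0 < C ∧ ∃ m0 : ℕ, ∀ (m : ℕ) [NeZero m], m0 ≤ m →
    ∀ η : ℤ, (η = 1 ∨ η = -1) → ∀ χ : DirichletCharacter ℂ m, χ ^ 2 = 1 →
    wout m η {χ} ≤ δ0 → ∑ q ∈ Bad m χ (3 / 10) (37 / 100), 1 / (q : ℝ) ≤ δ0 →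
    ∑ p ∈ (Icc 1 ⌊(m : ℝ) ^ (1 / 200 : ℝ)⌋₊).filter
      (fun p : ℕ => p.Prime ∧ ¬ p ∣ m ∧ χ (p : ZMod m) ≠ -1), 1 / (p : ℝ) ≤ C * wout m η {χ} := by
  obtain ⟨δ1, K1, hδ1, hK1, m1, hT⟩ := t6_D
  obtain ⟨K2, hK2, m2, hH⟩ := cop_harm_up
  obtain ⟨m3, hg⟩ := grow 2 0 (1 / 400) (by norm_num)
  refine ⟨min δ1 (min (1 / 400 / K1) (1 / 2 / (640000 * K1 * K2))), 2 * (640000 * K1 * K2),
    by positivity, by positivity, m1 + m2 + m3 + 3, ?_⟩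
  intro m _ hm η hη χ hχ hw hB
  have hw1 : K1 * wout m η {χ} ≤ 1 / 400 := by
    have := hw.trans ((min_le_right _ _).trans (min_le_left _ _))
    rw [le_div_iff₀ hK1] at this
    linarith
  have hw2 : 640000 * K1 * K2 * wout m η {χ} ≤ 1 / 2 := by
    have := hw.trans ((min_le_right _ _).trans (min_le_right _ _))
    rw [le_div_iff₀ (by positivity)] at this
    linarith
  have g3 := hg m (by omega)
  rw [pow_zero, mul_one] at g3
  have hm2 : 2 ≤ m := by omega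
  have hm1 : (1 : ℝ) < m := by exact_mod_cast hm2
  have hm0 : (0 : ℝ) < m := by linarith
  have hL : 0 < Real.log m := Real.log_pos hm1
  have hφ : (0 : ℝ) < m.totient := by
    have h2 : 0 < m.totient := Nat.totient_pos.mpr (by omega)
    exact_mod_cast h2
  have hD := hT m (by omega) η hη χ hχ (hB.trans (min_le_left _ _))
  have hS := hH m (by omega)
  obtain ⟨k, hk⟩ : ∃ k, k = cc m (FC m η) χ := ⟨_, rfl⟩
  rw [← hk] at hD
  have hk1 : ‖k‖ ≤ 1 := by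
    have h1 := wout_eq m hm2 η hη {χ}
    rw [sum_singleton] at h1
    have h2 : ww m η χ = ‖k‖ ^ 2 := by
      rw [hk]
      rfl
    rw [h2] at h1
    have h3 := wout_nonneg m η {χ}
    have h4 : ‖k‖ ^ 2 ≤ 1 ^ 2 := by linarith
    exact (sq_le_sq₀ (norm_nonneg k) (by norm_num)).mp h4
  -- lengths
  have hx : (m : ℝ) ^ (1 / 200 : ℝ) * (m : ℝ) ^ (1 / 200 : ℝ) = (m : ℝ) ^ (1 / 100 : ℝ) := by
    rw [← Real.rpow_add hm0]
    congr 1
    norm_num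
  have hx1 : (1 : ℝ) ≤ (m : ℝ) ^ (1 / 200 : ℝ) := Real.one_le_rpow hm1.le (by norm_num)
  have hS2 : m.totient / m * Real.log m / 400 ≤
      ∑ a ∈ cop m ⌊(m : ℝ) ^ (1 / 200 : ℝ)⌋₊, 1 / (a : ℝ) := by
    have e0 : (m : ℝ) ^ (1 / 400 : ℝ) ≤ (⌊(m : ℝ) ^ (1 / 200 : ℝ)⌋₊ : ℝ) := by
      have e1 : (m : ℝ) ^ (1 / 200 : ℝ) = (m : ℝ) ^ (1 / 400 : ℝ) * (m : ℝ) ^ (1 / 400 : ℝ) := by
        rw [← Real.rpow_add hm0]
        congr 1
        norm_num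
      have e2 := Nat.lt_floor_add_one ((m : ℝ) ^ (1 / 200 : ℝ))
      have e3 : (m : ℝ) ^ (1 / 400 : ℝ) + 1 ≤ (m : ℝ) ^ (1 / 200 : ℝ) := by
        rw [e1]
        nlinarith
      linarith
    have e4 : 1 ≤ ⌊(m : ℝ) ^ (1 / 200 : ℝ)⌋₊ := by
      have : (1 : ℝ) ≤ (⌊(m : ℝ) ^ (1 / 200 : ℝ)⌋₊ : ℝ) := by linarith
      exact_mod_cast this
    have e5 := cop_harm m ⌊(m : ℝ) ^ (1 / 200 : ℝ)⌋₊ (by omega) e4
    refine le_trans ?_ e5
    rw [mul_div_assoc]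
    refine mul_le_mul_of_nonneg_left ?_ (by positivity)
    have e6 : Real.log ((m : ℝ) ^ (1 / 400 : ℝ)) ≤ Real.log (⌊(m : ℝ) ^ (1 / 200 : ℝ)⌋₊ : ℝ) :=
      Real.log_le_log (by positivity) e0
    rw [Real.log_rpow hm0] at e6
    linarith
  -- the sets
  obtain ⟨C1, hC1⟩ : ∃ C1, C1 = cop m ⌊(m : ℝ) ^ (1 / 100 : ℝ)⌋₊ := ⟨_, rfl⟩
  obtain ⟨C2, hC2⟩ : ∃ C2, C2 = cop m ⌊(m : ℝ) ^ (1 / 200 : ℝ)⌋₊ := ⟨_, rfl⟩
  obtain ⟨P, hP⟩ : ∃ P, P = (Icc 1 ⌊(m : ℝ) ^ (1 / 200 : ℝ)⌋₊).filter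
      (fun p : ℕ => p.Prime ∧ ¬ p ∣ m ∧ χ (p : ZMod m) ≠ -1) := ⟨_, rfl⟩
  rw [← hC1] at hD hS
  rw [← hC2] at hS2
  rw [← hP]
  have hPm : ∀ p ∈ P, p.Prime ∧ p.Coprime m ∧ χ (p : ZMod m) = 1 ∧
      (p : ℝ) ≤ (m : ℝ) ^ (1 / 200 : ℝ) := by
    intro p hp
    rw [hP, mem_filter, mem_Icc] at hp
    obtain ⟨⟨a1, a2⟩, a3, a4, a5⟩ := hp
    have a6 : p.Coprime m := (Nat.Prime.coprime_iff_not_dvd a3).mpr a4
    refine ⟨a3, a6, ?_, (Nat.le_floor_iff (by positivity)).mp a2⟩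
    obtain ⟨u, hu⟩ : IsUnit (p : ZMod m) := (ZMod.isUnit_iff_coprime p m).mpr a6
    have h1 : χ (p : ZMod m) * χ (p : ZMod m) = 1 := by
      rw [← hu, ← MulChar.mul_apply, ← sq, hχ]
      exact MulChar.one_apply_coe u
    rcases mul_self_eq_one_iff.mp h1 with h2 | h2
    · exact h2
    · exact absurd h2 a5
  have hC1m : ∀ n, n ∈ C1 ↔ 1 ≤ n ∧ (n : ℝ) ≤ (m : ℝ) ^ (1 / 100 : ℝ) ∧ n.Coprime m := by
    intro n
    rw [hC1, mem_cop, Nat.le_floor_iff (by positivity)]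
  have hC2m : ∀ n, n ∈ C2 ↔ 1 ≤ n ∧ (n : ℝ) ≤ (m : ℝ) ^ (1 / 200 : ℝ) ∧ n.Coprime m := by
    intro n
    rw [hC2, mem_cop, Nat.le_floor_iff (by positivity)]
  have hnorm : ∀ n ∈ C1, ‖vv m χ n‖ = 1 := by
    intro n hn
    obtain ⟨a1, _, a3⟩ := (hC1m n).mp hn
    obtain ⟨u, hu⟩ : IsUnit (n : ZMod m) := (ZMod.isUnit_iff_coprime n m).mpr a3
    have h2 : ‖χ (n : ZMod m)‖ = 1 := by
      rw [← hu]
      exact DirichletCharacter.unit_norm_eq_one χ u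
    unfold vv
    rw [norm_mul, h2, mul_one]
    rcases lam_val n with h | h <;> rw [h] <;> simp
  have hsub : C2 ⊆ C1 := by
    intro n hn
    rw [hC2m] at hn
    rw [hC1m]
    refine ⟨hn.1, hn.2.1.trans ?_, hn.2.2⟩
    rw [← hx]
    exact le_mul_of_one_le_left (by positivity) hx1
  have hmul : ∀ p ∈ P, ∀ a ∈ C2, p * a ∈ C1 ∧ vv m χ (p * a) = -vv m χ a := by
    intro p hp a ha
    obtain ⟨p1, p2, p3, p4⟩ := hPm p hp
    obtain ⟨a1, a2, a3⟩ := (hC2m a).mp ha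
    refine ⟨?_, ?_⟩
    · rw [hC1m]
      refine ⟨Nat.mul_pos p1.pos a1, ?_, Nat.Coprime.mul_left p2 a3⟩
      push_cast
      rw [← hx]
      gcongr
    · unfold vv
      rw [lam_mul p a p1.pos (by omega), lam_prime p1, Nat.cast_mul, map_mul, p3]
      push_cast
      ring
  have hdiv : ∀ d n : ℕ, d ∣ n → n ∈ C1 → n / d ∈ C1 := by
    intro d n hd hn
    obtain ⟨a1, a2, a3⟩ := (hC1m n).mp hn
    have hdp : 0 < d := Nat.pos_of_dvd_of_pos hd a1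
    rw [hC1m]
    refine ⟨Nat.div_pos (Nat.le_of_dvd a1 hd) hdp, ?_, ?_⟩
    · have : ((n / d : ℕ) : ℝ) ≤ n := by exact_mod_cast Nat.div_le_self n d
      exact this.trans a2
    · exact Nat.Coprime.coprime_dvd_left (Nat.div_dvd_of_dvd hd) a3
  have hcore := SmallP_core C1 C2 P (vv m χ) k hk1 hnorm hsub (fun p hp => (hPm p hp).1) hmul hdiv
    _ _ _ _ rfl rfl rfl rfl
  refine SmallP_fin K1 K2 (wout m η {χ}) (m.totient / m * Real.log m) _ _ _ _ hK1 hK2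
    (wout_nonneg m η {χ}) (by positivity) (sum_nonneg fun _ _ => by positivity) hS2 hS hD
    (sum_nonneg fun _ _ => by positivity) hw1 hw2 hcore

end Pool.Agent.H78.PE
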